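import Pool.Agent.helper37.Witt.Core

/-!
The enveloping algebra of a Lie algebra with a Witt basis is generated by elements satisfying the
Witt relations.  Also a concrete model of the Witt algebra.
-/

namespace WittACC

section envel

attribute [local instance 100] LieRing.ofAssociativeRing

variable {K : Type*} [Field K] {L : Type*} [LieRing L] [LieAlgebra K L] (e : Module.Basis ℤ K L)

lemma adjoin_iota : Algebra.adjoin K (Set.range fun m => UniversalEnvelopingAlgebra.ι K (e m)) = ⊤ := by
  set S := Algebra.adjoin K (Set.range fun m => UniversalEnvelopingAlgebra.ι K (e m)) with hS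
  have hmem : ∀ x : L, UniversalEnvelopingAlgebra.ι K x ∈ S := by
    intro x
    have hx : x ∈ Submodule.span K (Set.range e) := by rw [e.span_eq]; trivial
    induction hx using Submodule.span_induction with
    | mem x hx => obtain ⟨m, rfl⟩ := hx; exact Algebra.subset_adjoin ⟨m, rfl⟩
    | zero => rw [map_zero]; exact zero_mem _
    | add x y _ _ hx hy => rw [map_add]; exact add_mem hx hy
    | smul c x _ hx => rw [map_smul]; exact Subalgebra.smul_mem _ hx c
  let f : L →ₗ⁅K⁆ S :=
    { toFun := fun x => ⟨UniversalEnvelopingAlgebra.ι K x, hmem x⟩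
      map_add' := fun x y => Subtype.ext (by simp)
      map_smul' := fun c x => Subtype.ext (by simp)
      map_lie' := fun {x y} => Subtype.ext (by
        rw [LieRing.of_associative_ring_bracket]
        simp [LieHom.map_lie, LieRing.of_associative_ring_bracket]) }
  have h1 : S.val.comp (UniversalEnvelopingAlgebra.lift K f)
      = AlgHom.id K (UniversalEnvelopingAlgebra K L) := by
    apply UniversalEnvelopingAlgebra.hom_ext
    ext x
    simp [f]
  rw [eq_top_iff]
  intro x _
  have h2 := congrArg (fun F => F x) h1
  simp only [AlgHom.comp_apply, AlgHom.id_apply] at h2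
  rw [← h2]
  exact (UniversalEnvelopingAlgebra.lift K f x).2

/-- The generators of the enveloping algebra. -/
noncomputable def wittGen (he : ∀ m n : ℤ, ⁅e m, e n⁆ = ((m : K) - n) • e (m + n)) :
    WittGen K (UniversalEnvelopingAlgebra K L) where
  E m := UniversalEnvelopingAlgebra.ι K (e m)
  comm m n := by
    rw [← LieRing.of_associative_ring_bracket, ← LieHom.map_lie, he, map_smul]
  gen := adjoin_iota e

end envel

section model

/-- A concrete model of the Witt algebra: Laurent polynomials with the bracket
`⁅f, g⁆ = θ(f) g - f θ(g)`, where `θ = t d/dt`. -/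
def Model : Type := Lau ℂ (Fin 1)

noncomputable instance : AddCommGroup Model := inferInstanceAs (AddCommGroup (Lau ℂ (Fin 1)))
noncomputable instance : Module ℂ Model := inferInstanceAs (Module ℂ (Lau ℂ (Fin 1)))

/-- The derivation `θ`. -/
noncomputable def thM : Lau ℂ (Fin 1) →ₗ[ℂ] Lau ℂ (Fin 1) := dg (ev 0)

lemma thM_mul (f g : Lau ℂ (Fin 1)) : thM (f * g) = thM f * g + f * thM g := dg_leib _ f g

/-- The bracket. -/
noncomputable def brM (f g : Lau ℂ (Fin 1)) : Lau ℂ (Fin 1) := thM f * g - f * thM g

lemma brM_add_left (f g h : Lau ℂ (Fin 1)) : brM (f + g) h = brM f h + brM g h := by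
  unfold brM; rw [map_add]; ring
lemma brM_add_right (f g h : Lau ℂ (Fin 1)) : brM f (g + h) = brM f g + brM f h := by
  unfold brM; rw [map_add]; ring
lemma brM_self (f : Lau ℂ (Fin 1)) : brM f f = 0 := by unfold brM; ring
lemma brM_jacobi (f g h : Lau ℂ (Fin 1)) :
    brM f (brM g h) = brM (brM f g) h + brM g (brM f h) := by
  unfold brM; simp only [map_sub, thM_mul]; ring
lemma brM_smul_right (c : ℂ) (f g : Lau ℂ (Fin 1)) : brM f (c • g) = c • brM f g := by
  unfold brM; rw [map_smul, mul_smul_comm, mul_smul_comm, smul_sub]

noncomputable instance : LieRing Model where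
  bracket := fun f g => brM f g
  add_lie := fun f g h => brM_add_left f g h
  lie_add := fun f g h => brM_add_right f g h
  lie_self := fun f => brM_self f
  leibniz_lie := fun f g h => brM_jacobi f g h

noncomputable instance : LieAlgebra ℂ Model where
  lie_smul := fun c f g => brM_smul_right c f g

/-- There is a Lie algebra with a Witt basis (so the hypotheses of the main results are
satisfied by an actual Lie algebra, the Witt algebra). -/
theorem exists_model : ∃ (W : Type) (_ : LieRing W) (_ : LieAlgebra ℂ W) (e : Module.Basis ℤ ℂ W),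
    ∀ m n : ℤ, ⁅e m, e n⁆ = ((m : ℂ) - (n : ℂ)) • e (m + n) := by
  let b : Module.Basis (Fin 1 → ℤ) ℂ Model := AddMonoidAlgebra.basis (Fin 1 → ℤ) ℂ
  refine ⟨Model, inferInstance, inferInstance, b.reindex (Equiv.funUnique (Fin 1) ℤ), ?_⟩
  have hb : ∀ m : ℤ, (b.reindex (Equiv.funUnique (Fin 1) ℤ) m : Model) = mon (fun _ => m) := by
    intro m
    rw [Module.Basis.reindex_apply]
    rfl
  intro m n
  rw [hb, hb, hb]
  show brM (mon (fun _ => m)) (mon (fun _ => n)) = _
  unfold brM thM
  rw [dg_mon, dg_mon, ev_apply, ev_apply, smul_mul_assoc, mul_smul_comm, mon_mul, ← sub_smul]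
  rfl

end model

end WittACC
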