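import Pool.Agent.helper37.Witt.Cofinal

/-!
Every nonzero two-sided ideal contains all `T k (disc^M * x)` for some `k`, `M`.
-/

namespace WittACC

variable {K : Type*} [Field K]

section supp

variable {X : Type*}

lemma dg_coeff (f : (X → ℤ) → K) (x : Lau K X) (c : X → ℤ) : (dg f x).coeff c = f c * x.coeff c := by
  induction x using lau_induction with
  | h0 => simp
  | hs k x hx => rw [map_smul, AddMonoidAlgebra.coeff_smul_apply, AddMonoidAlgebra.coeff_smul_apply, hx]; simp [mul_left_comm]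
  | ha x y hx hy =>
    rw [map_add, AddMonoidAlgebra.coeff_add, AddMonoidAlgebra.coeff_add, Finsupp.add_apply,
      Finsupp.add_apply, hx, hy, mul_add]
  | hm a =>
    rw [dg_mon, AddMonoidAlgebra.coeff_smul_apply, mon, AddMonoidAlgebra.coeff_single,
      smul_eq_mul]
    by_cases h : a = c
    · subst h; rfl
    · rw [Finsupp.single_eq_of_ne (Ne.symm h)]; simp

/-- A nonzero ideal of the Laurent polynomial ring stable under all `θ_i` is everything. -/
lemma ideal_eq_top [CharZero K] (g : Ideal (Lau K X)) (hg : g ≠ ⊥)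
    (hθ : ∀ i : X, ∀ x ∈ g, dg (ev i) x ∈ g) : g = ⊤ := by
  obtain ⟨x₀, hx₀, hne₀⟩ := Submodule.exists_mem_ne_zero_of_ne_bot hg
  have hex : ∃ n : ℕ, ∃ x ∈ g, x ≠ 0 ∧ x.coeff.support.card = n := ⟨_, x₀, hx₀, hne₀, rfl⟩
  classical
  obtain ⟨x, hx, hne, hcard⟩ := Nat.find_spec hex
  have hmin : ∀ y ∈ g, y ≠ 0 → x.coeff.support.card ≤ y.coeff.support.card := by
    intro y hy hyne
    rw [hcard]
    exact Nat.find_min' hex ⟨y, hy, hyne, rfl⟩
  have hsupp : x.coeff.support.Nonempty := by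
    rw [Finsupp.support_nonempty_iff]
    simpa using hne
  obtain ⟨a, ha⟩ := hsupp
  have huniq : ∀ b ∈ x.coeff.support, b = a := by
    intro b hb
    by_contra hba
    obtain ⟨i, hi⟩ := Function.ne_iff.1 hba
    set y := dg (ev i) x - (a i : K) • x with hy
    have hyg : y ∈ g := by
      refine g.sub_mem (hθ i x hx) ?_
      rw [Algebra.smul_def]; exact g.mul_mem_left _ hx
    have hyc : ∀ c, y.coeff c = ((c i : K) - a i) * x.coeff c := by
      intro c
      rw [hy, AddMonoidAlgebra.coeff_sub, Finsupp.sub_apply, dg_coeff,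
        AddMonoidAlgebra.coeff_smul_apply, ev_apply, smul_eq_mul, sub_mul]
    have hyne : y ≠ 0 := by
      intro h
      have h1 := hyc b
      rw [h] at h1
      simp only [AddMonoidAlgebra.coeff_zero, Finsupp.coe_zero, Pi.zero_apply] at h1
      rcases mul_eq_zero.1 h1.symm with h2 | h2
      · rw [sub_eq_zero] at h2
        exact hi (by exact_mod_cast h2)
      · exact (Finsupp.mem_support_iff.1 hb) h2
    have h3 := hmin y hyg hyne
    have h4 : y.coeff.support ⊂ x.coeff.support := by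
      rw [Finset.ssubset_iff_of_subset]
      · refine ⟨a, ha, ?_⟩
        rw [Finsupp.mem_support_iff, hyc]; simp
      · intro c hc
        rw [Finsupp.mem_support_iff, hyc] at hc
        rw [Finsupp.mem_support_iff]
        exact right_ne_zero_of_mul hc
    exact absurd (Finset.card_lt_card h4) (not_lt.2 h3)
  have hxa : x = (x.coeff a) • mon a := by
    ext c
    rw [AddMonoidAlgebra.coeff_smul_apply, mon, AddMonoidAlgebra.coeff_single, smul_eq_mul]
    by_cases h : a = c
    · subst h; simp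
    · rw [Finsupp.single_eq_of_ne (Ne.symm h), mul_zero]
      by_contra h0
      exact h (huniq c (Finsupp.mem_support_iff.2 h0)).symm
  have hunit : IsUnit x := by
    rw [hxa, Algebra.smul_def]
    exact ((IsUnit.mk0 _ (Finsupp.mem_support_iff.1 ha)).map _).mul (mon_isUnit a)
  exact Ideal.eq_top_of_isUnit_mem g hx hunit

end supp

namespace WittGen

variable {U : Type*} [Ring U] [Algebra K U] (G : WittGen K U)

/-- The ideal of `x` with `T k (disc^M x y) ∈ I` for all `y`, for some `M`. -/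
noncomputable def gI (k : ℕ) (I : TwoSidedIdeal U) : Ideal (Lau K (Fin k)) where
  carrier := {x | ∃ M : ℕ, ∀ y, G.T k (disc K (Fin k) ^ M * (x * y)) ∈ I}
  zero_mem' := ⟨0, fun y => by simp [I.zero_mem]⟩
  add_mem' := by
    rintro x x' ⟨M, hM⟩ ⟨M', hM'⟩
    refine ⟨M + M', fun y => ?_⟩
    have : disc K (Fin k) ^ (M + M') * ((x + x') * y) = disc K (Fin k) ^ M * (x * (disc K (Fin k) ^ M' * y))
        + disc K (Fin k) ^ M' * (x' * (disc K (Fin k) ^ M * y)) := by ring
    rw [this, map_add]; exact I.add_mem (hM _) (hM' _)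
  smul_mem' := by
    rintro c x ⟨M, hM⟩
    refine ⟨M, fun y => ?_⟩
    have : disc K (Fin k) ^ M * (c • x * y) = disc K (Fin k) ^ M * (x * (c * y)) := by
      rw [smul_eq_mul]; ring
    rw [this]; exact hM _

lemma mem_gI {k : ℕ} {I : TwoSidedIdeal U} {x : Lau K (Fin k)} :
    x ∈ G.gI k I ↔ ∃ M : ℕ, ∀ y, G.T k (disc K (Fin k) ^ M * (x * y)) ∈ I := Iff.rfl

lemma gI_disc {k : ℕ} {I : TwoSidedIdeal U} {x : Lau K (Fin k)} (h : disc K (Fin k) * x ∈ G.gI k I) :
    x ∈ G.gI k I := by
  obtain ⟨M, hM⟩ := h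
  refine ⟨M + 1, fun y => ?_⟩
  have : disc K (Fin k) ^ (M + 1) * (x * y) = disc K (Fin k) ^ M * (disc K (Fin k) * x * y) := by ring
  rw [this]; exact hM y

lemma gI_Dd {k : ℕ} {I : TwoSidedIdeal U} {x : Lau K (Fin k)} (h : x ∈ G.gI k I) (m : ℤ) :
    Dd m x ∈ G.gI k I := by
  obtain ⟨M, hM⟩ := h
  refine ⟨M, fun y => ?_⟩
  obtain ⟨ω, hω⟩ := exists_omega (K := K) k M m
  have h1 := G.ad_T m k (disc K (Fin k) ^ M * (x * y))
  rw [hω, Derivation.leibniz] at h1
  have h2 : disc K (Fin k) ^ M * (x • Dd m y + y • Dd m x + ω * (x * y))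
      = disc K (Fin k) ^ M * (Dd m x * y) + disc K (Fin k) ^ M * (x * (Dd m y + ω * y)) := by
    simp only [smul_eq_mul]; ring
  rw [h2, map_add] at h1
  have h3 : G.T k (disc K (Fin k) ^ M * (Dd m x * y)) = G.ad m (G.T k (disc K (Fin k) ^ M * (x * y)))
      - G.T k (disc K (Fin k) ^ M * (x * (Dd m y + ω * y))) := by rw [h1]; abel
  rw [h3, ad_apply]
  exact I.sub_mem (I.sub_mem (I.mul_mem_left _ _ (hM y)) (I.mul_mem_right _ _ (hM y))) (hM _)

lemma gI_theta {k : ℕ} {I : TwoSidedIdeal U} {x : Lau K (Fin k)} (h : x ∈ G.gI k I) (i : Fin k) :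
    dg (ev i) x ∈ G.gI k I := by
  set p : Polynomial (Lau K (Fin k)) :=
    ∏ j ∈ Finset.univ.erase i, (Polynomial.X - Polynomial.C (w j)) with hp
  have h1 : ∀ l, p.eval (w l) = if l = i then ∏ j ∈ Finset.univ.erase i, (w i - w j) else 0 := by
    intro l
    rw [hp, Polynomial.eval_prod]
    split_ifs with hl
    · subst hl; simp
    · apply Finset.prod_eq_zero (i := l) (by simp [hl]); simp
  have h2 : ∑ m ∈ Finset.range (p.natDegree + 1), p.coeff m * Dd (m : ℤ) x
      = - ((∏ j ∈ Finset.univ.erase i, (w i - w j)) * dg (ev i) x) := by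
    have e1 : ∀ m : ℕ, p.coeff m * Dd (m : ℤ) x = - ∑ l : Fin k, (p.coeff m * w l ^ m) * dg (ev l) x := by
      intro m
      rw [Dd_apply, mul_neg, Finset.mul_sum]
      congr 1
      refine Finset.sum_congr rfl fun l _ => ?_
      rw [wz_natCast]; rw [w]; ring
    simp only [e1]
    rw [Finset.sum_neg_distrib, Finset.sum_comm]
    congr 1
    simp only [← Finset.sum_mul]
    have e2 : ∀ l : Fin k, ∑ m ∈ Finset.range (p.natDegree + 1), p.coeff m * w l ^ m = p.eval (w l) :=
      fun l => (Polynomial.eval_eq_sum_range (p := p) (w l)).symm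
    simp only [e2, h1]
    rw [Finset.sum_eq_single i]
    · simp
    · intro l _ hl; simp [hl]
    · intro h; exact absurd (Finset.mem_univ _) h
  have h3 : (∏ j ∈ Finset.univ.erase i, (w i - w j)) * dg (ev i) x ∈ G.gI k I := by
    rw [← Ideal.neg_mem_iff, ← h2]
    exact Ideal.sum_mem _ fun m _ => Ideal.mul_mem_left _ _ (G.gI_Dd h _)
  have h4 : (∏ j ∈ Finset.univ.erase i, (w i - w j)) ∣ disc K (Fin k) := by
    have e1 : (∏ j : Fin k, if i = j then (1 : Lau K (Fin k)) else w i - w j)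
        = ∏ j ∈ Finset.univ.erase i, (w i - w j) := by
      rw [← Finset.mul_prod_erase _ _ (Finset.mem_univ i), if_pos rfl, one_mul]
      refine Finset.prod_congr rfl fun j hj => ?_
      rw [if_neg (Finset.ne_of_mem_erase hj).symm]
    rw [← e1, disc]
    exact Finset.dvd_prod_of_mem (fun i => ∏ j : Fin k, if i = j then (1 : Lau K (Fin k)) else w i - w j)
      (Finset.mem_univ i)
  obtain ⟨c, hc⟩ := h4
  apply G.gI_disc
  rw [hc]
  have : (∏ j ∈ Finset.univ.erase i, (w i - w j)) * c * dg (ev i) x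
      = c * ((∏ j ∈ Finset.univ.erase i, (w i - w j)) * dg (ev i) x) := by ring
  rw [this]
  exact Ideal.mul_mem_left _ _ h3

/-- Cofinality of the ideals generated by the `T k (disc^M x)`. -/
theorem cofinal [CharZero K] (I : TwoSidedIdeal U) (hI : I ≠ ⊥) :
    ∃ k M : ℕ, ∀ x : Lau K (Fin k), G.T k (disc K (Fin k) ^ M * x) ∈ I := by
  obtain ⟨u, huI, hu⟩ : ∃ u ∈ I, u ≠ 0 := by
    by_contra h
    push Not at h
    apply hI
    rw [eq_bot_iff]
    intro x hx
    exact (TwoSidedIdeal.mem_bot U).2 (h x hx)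
  classical
  have hex := G.exists_mem_F u
  obtain ⟨k, hk⟩ : ∃ k, Nat.find hex = k + 1 := by
    cases hn : Nat.find hex with
    | zero =>
      have h1 := Nat.find_spec hex
      rw [hn, G.F_zero] at h1
      exact absurd ((Submodule.mem_bot K).1 h1) hu
    | succ k => exact ⟨k, rfl⟩
  have hu1 : u ∈ G.F (k + 1) := hk ▸ Nat.find_spec hex
  have hu2 : u ∉ G.F k := fun h => by
    have := Nat.find_min' hex h
    omega
  obtain ⟨Φ, v, hv, rfl⟩ := G.exists_T_add hu1
  have hT : G.T k Φ ∉ G.F k := fun h => hu2 (add_mem h hv)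
  set Φs : Lau K (Fin k) := ∑ π : Equiv.Perm (Fin k), sub π Φ with hΦs
  have hΦs0 : Φs ≠ 0 := by
    intro h0
    apply hT
    have h1 : ∑ π : Equiv.Perm (Fin k), (G.T k (sub π Φ) - G.T k Φ) ∈ G.F k :=
      Submodule.sum_mem _ fun π _ => G.T_perm_sub_mem k π Φ
    rw [Finset.sum_sub_distrib, ← map_sum, ← hΦs, h0, map_zero, zero_sub, neg_mem_iff,
      Finset.sum_const, ← Nat.cast_smul_eq_nsmul K] at h1
    have h2 : ((Finset.univ : Finset (Equiv.Perm (Fin k))).card : K) ≠ 0 := by
      rw [Finset.card_univ]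
      exact_mod_cast Fintype.card_ne_zero
    have h3 := (G.F k).smul_mem ((Finset.univ : Finset (Equiv.Perm (Fin k))).card : K)⁻¹ h1
    rwa [smul_smul, inv_mul_cancel₀ h2, one_smul] at h3
  have hmem : Φs ∈ G.gI k I := by
    refine ⟨4 * (k + k + 1), fun y => ?_⟩
    obtain ⟨ci, hci⟩ := (isUnit_un (K := K) k).exists_right_inv
    have h1 := G.adOp_mem I (Psi k (ci * y)) huI
    rw [map_add, G.adOp_Psi_F _ hv, add_zero, adOp_Psi_T, map_sum] at h1
    have h2 : ∀ π : Equiv.Perm (Fin k), G.T k (un K k * (disc K (Fin k) ^ (4 * (k + k + 1)) *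
        sub π (ci * y)) * Φ) = G.T k (disc K (Fin k) ^ (4 * (k + k + 1)) * (sub π.symm Φ * y)) := by
      intro π
      have e1 : un K k * (disc K (Fin k) ^ (4 * (k + k + 1)) * sub π (ci * y)) * Φ
          = sub π (disc K (Fin k) ^ (4 * (k + k + 1)) * (sub π.symm Φ * y)) := by
        have e2 : sub π (sub π.symm Φ) = Φ := by
          rw [sub_sub, ← Equiv.coe_trans, Equiv.symm_trans_self]
          exact sub_id Φ
        have e3 : un K k * sub π ci = 1 := by
          conv_lhs => rw [← sub_un k π]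
          rw [← map_mul, hci, map_one]
        simp only [map_mul, map_pow, sub_disc, e2]
        linear_combination (disc K (Fin k) ^ (4 * (k + k + 1)) * sub π y * Φ) * e3
      rw [e1]
      refine G.T_perm k π _ ?_
      refine Dvd.dvd.mul_right (dvd_pow_self _ (by omega)) _
    simp only [h2] at h1
    have h3 : ∑ π : Equiv.Perm (Fin k), G.T k (disc K (Fin k) ^ (4 * (k + k + 1)) * (sub π.symm Φ * y))
        = G.T k (disc K (Fin k) ^ (4 * (k + k + 1)) * (Φs * y)) := by
      rw [← map_sum, ← Finset.mul_sum, ← Finset.sum_mul]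
      congr 3
      rw [hΦs]
      exact Equiv.sum_comp (Equiv.inv (Equiv.Perm (Fin k))) (fun π => sub π Φ)
    rw [← h3]; exact h1
  have hgI : G.gI k I ≠ ⊥ := fun h => hΦs0 (by rw [h] at hmem; exact hmem)
  have htop := ideal_eq_top (G.gI k I) hgI (fun i x hx => G.gI_theta hx i)
  have h1 : (1 : Lau K (Fin k)) ∈ G.gI k I := by rw [htop]; trivial
  obtain ⟨M, hM⟩ := h1
  exact ⟨k, M, fun x => by have := hM x; rwa [one_mul] at this⟩

end WittGen

end WittACC
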