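import Pool.Agent.helper37.Witt.Core

/-!
Ascending chain condition for certain submodules of `R ⊗ U`.
-/

namespace WittACC

open TensorProduct

/-- A linear recurrence with invertible leading and constant coefficients. -/
lemma recurrence {R V : Type*} [CommRing R] [AddCommGroup V] [Module R V] (S : Submodule R V)
    (g : ℤ → V) (p : ℕ → R) (N : ℕ) (h0 : IsUnit (p 0)) (hN : IsUnit (p N))
    (hrel : ∀ t : ℤ, ∑ κ ∈ Finset.range (N + 1), p κ • g (t + κ) ∈ S)
    (hg : ∀ m : ℤ, 0 ≤ m → m < N → g m ∈ S) (m : ℤ) : g m ∈ S := by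
  have unit_mem : ∀ {r : R} {v : V}, IsUnit r → r • v ∈ S → v ∈ S := by
    rintro r v ⟨u, rfl⟩ h
    have := S.smul_mem (↑u⁻¹ : R) h
    rwa [smul_smul, Units.inv_mul, one_smul] at this
  have fwd : ∀ k : ℕ, g k ∈ S := by
    intro k
    induction k using Nat.strong_induction_on with
    | _ k ih =>
      by_cases hk : k < N
      · exact hg k (by positivity) (by exact_mod_cast hk)
      · push Not at hk
        obtain ⟨j, rfl⟩ := Nat.exists_eq_add_of_le hk
        have h1 := hrel j
        rw [Finset.sum_range_succ] at h1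
        have h2 : ∑ κ ∈ Finset.range N, p κ • g ((j : ℤ) + κ) ∈ S := by
          refine S.sum_mem fun κ hκ => S.smul_mem _ ?_
          have := ih (j + κ) (by have := Finset.mem_range.1 hκ; omega)
          exact_mod_cast this
        have h3 := (S.add_mem_iff_right h2).1 h1
        have h4 := unit_mem hN h3
        rw [add_comm] at h4
        exact_mod_cast h4
  have bwd : ∀ k : ℕ, g (-(k : ℤ)) ∈ S := by
    intro k
    induction k using Nat.strong_induction_on with
    | _ k ih =>
      have h1 := hrel (-(k : ℤ))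
      rw [Finset.sum_range_succ'] at h1
      have h2 : ∑ κ ∈ Finset.range N, p (κ + 1) • g (-(k : ℤ) + ((κ + 1 : ℕ) : ℤ)) ∈ S := by
        refine S.sum_mem fun κ _ => S.smul_mem _ ?_
        by_cases hκ : κ + 1 ≤ k
        · have := ih (k - (κ + 1)) (by omega)
          have h3 : -(k : ℤ) + ((κ + 1 : ℕ) : ℤ) = -((k - (κ + 1) : ℕ) : ℤ) := by
            rw [Nat.cast_sub hκ]; ring
          rw [h3]; exact this
        · push Not at hκ
          have := fwd (κ + 1 - k)
          have h3 : -(k : ℤ) + ((κ + 1 : ℕ) : ℤ) = ((κ + 1 - k : ℕ) : ℤ) := by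
            rw [Nat.cast_sub hκ.le]; ring
          rw [h3]; exact this
      have h3 := (S.add_mem_iff_right h2).1 h1
      have h4 := unit_mem h0 h3
      simpa using h4
  obtain ⟨k, rfl | rfl⟩ := m.eq_nat_or_neg
  · exact fwd k
  · exact bwd k

namespace WittGen

variable {K : Type*} [Field K] {U : Type*} [Ring U] [Algebra K U] (G : WittGen K U)
variable (R : Type*) [CommRing R] [Algebra K R]

/-- Degree filtration of `R ⊗ U`. -/
def FM (d : ℕ) : Submodule R (R ⊗[K] U) :=
  Submodule.span R {x | ∃ l : List ℤ, l.length < d ∧ (1 : R) ⊗ₜ[K] G.W l = x}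

variable {R}

lemma FM_le {d : ℕ} {N : Submodule R (R ⊗[K] U)}
    (h : ∀ l : List ℤ, l.length < d → (1 : R) ⊗ₜ[K] G.W l ∈ N) : G.FM R d ≤ N :=
  Submodule.span_le.2 (by rintro x ⟨l, hl, rfl⟩; exact h l hl)

lemma W_mem_FM {d : ℕ} {l : List ℤ} (h : l.length < d) : (1 : R) ⊗ₜ[K] G.W l ∈ G.FM R d :=
  Submodule.subset_span ⟨l, h, rfl⟩

lemma FM_mono {d e : ℕ} (h : d ≤ e) : G.FM R d ≤ G.FM R e :=
  G.FM_le fun _ hl => G.W_mem_FM (hl.trans_le h)

lemma FM_zero : G.FM R 0 = ⊥ := by
  rw [FM, Submodule.span_eq_bot]; rintro x ⟨l, hl, -⟩; simp at hl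

lemma tmul_mem_FM {d : ℕ} {x : U} (hx : x ∈ G.F d) (r : R) : r ⊗ₜ[K] x ∈ G.FM R d := by
  have h1 : (1 : R) ⊗ₜ[K] x ∈ G.FM R d := by
    have : G.F d ≤ ((G.FM R d).restrictScalars K).comap (TensorProduct.mk K R U 1) :=
      G.F_le fun l hl => G.W_mem_FM hl
    exact this hx
  have h2 : r ⊗ₜ[K] x = r • ((1 : R) ⊗ₜ[K] x) := by
    rw [TensorProduct.smul_tmul']; simp
  rw [h2]; exact Submodule.smul_mem _ _ h1

lemma FM_induction {d : ℕ} {P : R ⊗[K] U → Prop} (h0 : P 0)
    (hadd : ∀ x y, P x → P y → P (x + y)) (ht : ∀ (r : R) (l : List ℤ), l.length < d →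
      P (r ⊗ₜ[K] G.W l)) {x : R ⊗[K] U} (hx : x ∈ G.FM R d) : P x := by
  induction hx using Submodule.closure_induction with
  | zero => exact h0
  | add x y _ _ hx hy => exact hadd x y hx hy
  | smul_mem r x hx =>
    obtain ⟨l, hl, rfl⟩ := hx
    have h2 : r • ((1 : R) ⊗ₜ[K] G.W l) = r ⊗ₜ[K] G.W l := by
      rw [TensorProduct.smul_tmul']; simp
    rw [h2]; exact ht r l hl


section acc

variable (R)

/-- The hypotheses on the derivation-like operators. -/
structure OpData where
  /-- the operators -/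
  D : ℤ → (R ⊗[K] U) →ₗ[K] (R ⊗[K] U)
  /-- they preserve the filtration -/
  hD : ∀ v d m, m ∈ G.FM R d → D v m ∈ G.FM R d
  /-- the recurrence polynomial -/
  p : ℕ → R
  /-- its degree -/
  N : ℕ
  h0 : IsUnit (p 0)
  hN : IsUnit (p N)

variable {R}
variable {G}

/-- Stable submodules. -/
structure Stable (O : G.OpData R) (Z : Submodule R (R ⊗[K] U)) : Prop where
  rmul : ∀ m ∈ Z, ∀ x : U, m * ((1 : R) ⊗ₜ[K] x) ∈ Z
  lact : ∀ m ∈ Z, ∀ v : ℤ, ((1 : R) ⊗ₜ[K] G.E v) * m + O.D v m ∈ Z
  rel : ∀ t : ℤ, ∑ κ ∈ Finset.range (O.N + 1), O.p κ ⊗ₜ[K] G.E (t + κ) ∈ Z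

variable (O : G.OpData R)

/-- The word attached to a multiset of indices. -/
noncomputable def OpData.word (κ : Fin O.N →₀ ℕ) : List ℤ :=
  (Finsupp.toMultiset κ).toList.map (fun j => (j.val : ℤ))

lemma OpData.word_length (κ : Fin O.N →₀ ℕ) :
    (O.word κ).length = Multiset.card (Finsupp.toMultiset κ) := by
  simp [OpData.word]

/-- The degree `d` part of the lift from polynomials. -/
noncomputable def OpData.lift (d : ℕ) : MvPolynomial (Fin O.N) R →ₗ[R] (R ⊗[K] U) :=
  (MvPolynomial.basisMonomials (Fin O.N) R).constr R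
    (fun κ => if (O.word κ).length = d then (1 : R) ⊗ₜ[K] G.W (O.word κ) else 0)

lemma OpData.lift_monomial (d : ℕ) (κ : Fin O.N →₀ ℕ) :
    O.lift d (MvPolynomial.monomial κ 1) =
      if (O.word κ).length = d then (1 : R) ⊗ₜ[K] G.W (O.word κ) else 0 := by
  have := (MvPolynomial.basisMonomials (Fin O.N) R).constr_basis R
    (fun κ => if (O.word κ).length = d then (1 : R) ⊗ₜ[K] G.W (O.word κ) else 0) κ
  simpa [OpData.lift] using this

lemma OpData.lift_mem (d : ℕ) (f : MvPolynomial (Fin O.N) R) : O.lift d f ∈ G.FM R (d + 1) := by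
  have : f ∈ Submodule.span R (Set.range (MvPolynomial.basisMonomials (Fin O.N) R)) := by
    rw [(MvPolynomial.basisMonomials (Fin O.N) R).span_eq]; trivial
  induction this using Submodule.span_induction with
  | mem x hx =>
    obtain ⟨κ, rfl⟩ := hx
    rw [MvPolynomial.coe_basisMonomials, O.lift_monomial]
    split_ifs with h
    · exact G.W_mem_FM (by omega)
    · exact zero_mem _
  | zero => simp
  | add x y _ _ hx hy => rw [map_add]; exact add_mem hx hy
  | smul c x _ hx => rw [map_smul]; exact Submodule.smul_mem _ _ hx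

lemma perm_sub_mem_FM {l l' : List ℤ} (h : l.Perm l') :
    (1 : R) ⊗ₜ[K] G.W l - (1 : R) ⊗ₜ[K] G.W l' ∈ G.FM R l.length := by
  rw [← TensorProduct.tmul_sub]
  exact G.tmul_mem_FM (G.perm_sub_mem h) 1

lemma E_mul_mem_FM {d : ℕ} (v : ℤ) {x : R ⊗[K] U} (hx : x ∈ G.FM R d) :
    ((1 : R) ⊗ₜ[K] G.E v) * x ∈ G.FM R (d + 1) := by
  refine G.FM_induction (P := fun x => ((1 : R) ⊗ₜ[K] G.E v) * x ∈ G.FM R (d + 1)) ?_ ?_ ?_ hx
  · simp
  · intro x y hx hy; rw [mul_add]; exact add_mem hx hy
  · intro r l hl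
    rw [Algebra.TensorProduct.tmul_mul_tmul, one_mul, ← G.W_cons]
    exact G.tmul_mem_FM (G.W_mem_F (by simpa using hl)) r

lemma OpData.word_add (κ : Fin O.N →₀ ℕ) (j : Fin O.N) :
    (O.word (κ + Finsupp.single j 1)).Perm ((j.val : ℤ) :: O.word κ) := by
  rw [OpData.word, OpData.word, ← List.map_cons (f := fun j : Fin O.N => (j.val : ℤ))]
  apply List.Perm.map
  rw [← Multiset.coe_eq_coe, ← Multiset.cons_coe]
  simp only [Multiset.coe_toList, map_add, Finsupp.toMultiset_single]
  rw [one_nsmul, add_comm, Multiset.singleton_add]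

lemma OpData.lift_X_mul (d : ℕ) (j : Fin O.N) (f : MvPolynomial (Fin O.N) R) :
    O.lift (d + 1) (MvPolynomial.X j * f) - ((1 : R) ⊗ₜ[K] G.E j.val) * O.lift d f
      ∈ G.FM R (d + 1) := by
  have : f ∈ Submodule.span R (Set.range (MvPolynomial.basisMonomials (Fin O.N) R)) := by
    rw [(MvPolynomial.basisMonomials (Fin O.N) R).span_eq]; trivial
  induction this using Submodule.span_induction with
  | mem x hx =>
    obtain ⟨κ, rfl⟩ := hx
    rw [MvPolynomial.coe_basisMonomials, O.lift_monomial]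
    have h1 : MvPolynomial.X j * MvPolynomial.monomial κ (1 : R)
        = MvPolynomial.monomial (κ + Finsupp.single j 1) 1 := by
      rw [MvPolynomial.X, MvPolynomial.monomial_mul, one_mul, add_comm]
    rw [h1, O.lift_monomial]
    have h2 := O.word_add κ j
    have h3 : (O.word (κ + Finsupp.single j 1)).length = (O.word κ).length + 1 := by
      rw [h2.length_eq]; simp
    rw [h3]
    by_cases h : (O.word κ).length = d
    · rw [if_pos (by omega), if_pos h, Algebra.TensorProduct.tmul_mul_tmul, one_mul, ← G.W_cons]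
      have := perm_sub_mem_FM (R := R) (G := G) h2
      rwa [h3, h] at this
    · rw [if_neg (by omega), if_neg h]; simp
  | zero => simp
  | add x y _ _ hx hy =>
    rw [mul_add, map_add, map_add, mul_add]
    have := add_mem hx hy
    convert this using 1; abel
  | smul c x _ hx =>
    have := Submodule.smul_mem _ c hx
    rw [smul_sub] at this
    rw [mul_smul_comm, map_smul, map_smul, mul_smul_comm]
    exact this

lemma OpData.lift_zero_X_mul (j : Fin O.N) (f : MvPolynomial (Fin O.N) R) :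
    O.lift 0 (MvPolynomial.X j * f) = 0 := by
  have : f ∈ Submodule.span R (Set.range (MvPolynomial.basisMonomials (Fin O.N) R)) := by
    rw [(MvPolynomial.basisMonomials (Fin O.N) R).span_eq]; trivial
  induction this using Submodule.span_induction with
  | mem x hx =>
    obtain ⟨κ, rfl⟩ := hx
    have h1 : MvPolynomial.X j * MvPolynomial.monomial κ (1 : R)
        = MvPolynomial.monomial (κ + Finsupp.single j 1) 1 := by
      rw [MvPolynomial.X, MvPolynomial.monomial_mul, one_mul, add_comm]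
    rw [MvPolynomial.coe_basisMonomials, h1, O.lift_monomial]
    have h3 : (O.word (κ + Finsupp.single j 1)).length = (O.word κ).length + 1 := by
      rw [(O.word_add κ j).length_eq]; simp
    rw [if_neg (by omega)]
  | zero => simp
  | add x y _ _ hx hy => rw [mul_add, map_add, hx, hy, add_zero]
  | smul c x _ hx => rw [mul_smul_comm, map_smul, hx, smul_zero]

/-- The ideal of leading forms. -/
noncomputable def OpData.J {Z : Submodule R (R ⊗[K] U)} (hZ : Stable O Z) :
    Ideal (MvPolynomial (Fin O.N) R) where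
  carrier := {f | ∀ d, O.lift d f ∈ Z ⊔ G.FM R d}
  add_mem' hf hg d := by rw [map_add]; exact add_mem (hf d) (hg d)
  zero_mem' d := by rw [map_zero]; exact zero_mem _
  smul_mem' a f hf := by
    induction a using MvPolynomial.induction_on generalizing f with
    | C r =>
      intro d
      have : (MvPolynomial.C r : MvPolynomial (Fin O.N) R) • f = r • f := by
        rw [MvPolynomial.smul_eq_C_mul]; rfl
      rw [this, map_smul]
      exact Submodule.smul_mem _ _ (hf d)
    | add a b ha hb =>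
      intro d
      rw [add_smul, map_add]; exact add_mem (ha f hf d) (hb f hf d)
    | mul_X a j ha =>
      rw [mul_smul]
      refine ha _ ?_
      intro d
      rw [smul_eq_mul]
      cases d with
      | zero => rw [O.lift_zero_X_mul]; exact zero_mem _
      | succ d =>
        have h1 := O.lift_X_mul d j f
        have h2 : ((1 : R) ⊗ₜ[K] G.E j.val) * O.lift d f ∈ Z ⊔ G.FM R (d + 1) := by
          obtain ⟨z, hz, u, hu, hzu⟩ := Submodule.mem_sup.1 (hf d)
          have h3 : ((1 : R) ⊗ₜ[K] G.E j.val) * O.lift d f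
              = (((1 : R) ⊗ₜ[K] G.E j.val) * z + O.D j.val z)
                + (((1 : R) ⊗ₜ[K] G.E j.val) * u - O.D j.val z) := by
            rw [← hzu, mul_add]; abel
          have hz' : z ∈ G.FM R (d + 1) := by
            have : z = O.lift d f - u := by rw [← hzu]; abel
            rw [this]
            exact sub_mem (O.lift_mem d f) (G.FM_mono (Nat.le_succ d) hu)
          rw [h3]
          exact Submodule.add_mem_sup (hZ.lact z hz _)
            (sub_mem (E_mul_mem_FM _ hu) (O.hD _ _ _ hz'))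
        have h4 := add_mem (Submodule.mem_sup_right (S := Z) h1) h2
        simpa using h4

/-- Leading words of degree exactly `d`. -/
noncomputable def OpData.P (d : ℕ) : Submodule R (MvPolynomial (Fin O.N) R) where
  carrier := {f | ∀ d', d' ≠ d → O.lift d' f = 0}
  add_mem' hf hg d' h := by rw [map_add, hf d' h, hg d' h, add_zero]
  zero_mem' d' h := map_zero _
  smul_mem' a f hf d' h := by rw [map_smul, hf d' h, smul_zero]

lemma OpData.word_mem (l : List (Fin O.N)) : (1 : R) ⊗ₜ[K] G.W (l.map (fun j => (j.val : ℤ)))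
    ∈ (O.P l.length).map (O.lift l.length) ⊔ G.FM R l.length := by
  set κ := Multiset.toFinsupp (l : Multiset (Fin O.N)) with hκ
  have h1 : (O.word κ).Perm (l.map (fun j => (j.val : ℤ))) := by
    rw [OpData.word]
    apply List.Perm.map
    rw [← Multiset.coe_eq_coe, hκ]
    simp
  have h2 : (O.word κ).length = l.length := by rw [h1.length_eq]; simp
  have h3 : (1 : R) ⊗ₜ[K] G.W (O.word κ) ∈ (O.P l.length).map (O.lift l.length) := by
    refine ⟨MvPolynomial.monomial κ 1, ?_, ?_⟩
    · intro d' hd'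
      rw [O.lift_monomial, if_neg (by omega)]
    · rw [O.lift_monomial, if_pos h2]
  have h4 := perm_sub_mem_FM (R := R) (G := G) h1
  rw [h2] at h4
  have h5 := sub_mem (Submodule.mem_sup_left (T := G.FM R l.length) h3)
    (Submodule.mem_sup_right (S := (O.P l.length).map (O.lift l.length)) h4)
  simpa using h5

lemma OpData.straighten {Z : Submodule R (R ⊗[K] U)} (hZ : Stable O Z) :
    ∀ (l₁ : List ℤ) (l₂ : List (Fin O.N)) (d : ℕ), l₁.length + l₂.length = d →
      (1 : R) ⊗ₜ[K] G.W (l₁ ++ l₂.map (fun j => (j.val : ℤ)))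
        ∈ (O.P d).map (O.lift d) ⊔ Z ⊔ G.FM R d := by
  intro l₁
  induction l₁ with
  | nil =>
    intro l₂ d hd
    simp only [List.length_nil, zero_add] at hd
    subst hd
    have h1 := O.word_mem l₂
    have h2 : (O.P l₂.length).map (O.lift l₂.length) ⊔ G.FM R l₂.length
        ≤ (O.P l₂.length).map (O.lift l₂.length) ⊔ Z ⊔ G.FM R l₂.length :=
      sup_le_sup_right le_sup_left _
    exact h2 h1
  | cons m l₁ ih =>
    intro l₂ d hd
    simp only [List.length_cons] at hd
    set S := (O.P d).map (O.lift d) ⊔ Z ⊔ G.FM R d with hS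
    have key := recurrence S
      (fun m => (1 : R) ⊗ₜ[K] G.W ((m :: l₁) ++ l₂.map (fun j => (j.val : ℤ)))) O.p O.N O.h0 O.hN
      ?_ ?_ m
    · exact key
    · intro t
      have h1 := hZ.rmul _ (hZ.rel t) (G.W (l₁ ++ l₂.map (fun j => (j.val : ℤ))))
      rw [Finset.sum_mul] at h1
      have h2 : ∀ κ : ℕ, O.p κ ⊗ₜ[K] G.E (t + κ) * (1 : R) ⊗ₜ[K] G.W (l₁ ++ l₂.map (fun j => (j.val : ℤ)))
          = O.p κ • ((1 : R) ⊗ₜ[K] G.W (((t + κ) :: l₁) ++ l₂.map (fun j => (j.val : ℤ)))) := by
        intro κ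
        rw [Algebra.TensorProduct.tmul_mul_tmul, TensorProduct.smul_tmul', List.cons_append,
          G.W_cons, mul_one, smul_eq_mul, mul_one]
      simp only [h2] at h1
      exact Submodule.mem_sup_left (Submodule.mem_sup_right h1)
    · intro m hm hmN
      obtain ⟨j, rfl⟩ := Int.eq_ofNat_of_zero_le hm
      have hj : j < O.N := by exact_mod_cast hmN
      have h1 := ih (⟨j, hj⟩ :: l₂) d (by simp only [List.length_cons]; omega)
      have h2 : (((j : ℤ) :: l₁) ++ l₂.map (fun j => (j.val : ℤ))).Perm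
          (l₁ ++ ((⟨j, hj⟩ : Fin O.N) :: l₂).map (fun j => (j.val : ℤ))) := by
        simp only [List.cons_append, List.map_cons]
        exact List.perm_middle.symm
      have h3 := perm_sub_mem_FM (R := R) (G := G) h2
      have h4 : (((j : ℤ) :: l₁) ++ l₂.map (fun j => (j.val : ℤ))).length = d := by
        simp; omega
      rw [h4] at h3
      have h5 := add_mem (Submodule.mem_sup_right (S := (O.P d).map (O.lift d) ⊔ Z) h3) h1
      simpa using h5

lemma OpData.FM_succ_le {Z : Submodule R (R ⊗[K] U)} (hZ : Stable O Z) (d : ℕ) :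
    G.FM R (d + 1) ≤ (O.P d).map (O.lift d) ⊔ Z ⊔ G.FM R d := by
  refine G.FM_le fun l hl => ?_
  rcases Nat.lt_succ_iff_lt_or_eq.1 hl with h | h
  · exact Submodule.mem_sup_right (G.W_mem_FM h)
  · have := O.straighten hZ l [] d (by simpa using h)
    simpa using this

lemma exists_mem_FM (x : R ⊗[K] U) : ∃ d, x ∈ G.FM R d := by
  induction x using TensorProduct.induction_on with
  | zero => exact ⟨0, zero_mem _⟩
  | tmul r x =>
    obtain ⟨d, hd⟩ := G.exists_mem_F x
    exact ⟨d, G.tmul_mem_FM hd r⟩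
  | add x y hx hy =>
    obtain ⟨d, hd⟩ := hx; obtain ⟨e, he⟩ := hy
    exact ⟨max d e, add_mem (G.FM_mono (le_max_left _ _) hd) (G.FM_mono (le_max_right _ _) he)⟩

/-- Ascending chains of stable submodules stabilize. -/
theorem stable_acc [IsNoetherianRing R] (Z : ℕ → Submodule R (R ⊗[K] U)) (hmono : Monotone Z)
    (hZ : ∀ k, Stable O (Z k)) : ∃ k₀, ∀ k, k₀ ≤ k → Z k = Z k₀ := by
  let f : ℕ →o Ideal (MvPolynomial (Fin O.N) R) :=
    ⟨fun k => O.J (hZ k), fun a b hab f hf d => (sup_le_sup_right (hmono hab) _) (hf d)⟩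
  obtain ⟨k₀, hk₀⟩ := (monotone_stabilizes_iff_noetherian
    (R := MvPolynomial (Fin O.N) R) (M := MvPolynomial (Fin O.N) R)).2 inferInstance f
  refine ⟨k₀, fun k hk => le_antisymm ?_ (hmono hk)⟩
  have key : ∀ d, Z k ⊓ G.FM R d ≤ Z k₀ := by
    intro d
    induction d with
    | zero => rw [G.FM_zero, inf_bot_eq]; exact bot_le
    | succ d ih =>
      rintro m ⟨hm, hmd⟩
      obtain ⟨y, hy, u, hu, rfl⟩ := Submodule.mem_sup.1 (O.FM_succ_le (hZ k₀) d hmd)
      obtain ⟨h, ⟨f', hf', rfl⟩, z, hz, rfl⟩ := Submodule.mem_sup.1 hy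
      have h1 : f' ∈ O.J (hZ k) := by
        intro d'
        by_cases hd' : d' = d
        · subst hd'
          have h2 : O.lift d' f' = ((O.lift d' f' + z + u) - z) - u := by abel
          rw [h2]
          exact sub_mem (sub_mem (Submodule.mem_sup_left hm)
            (Submodule.mem_sup_left (hmono hk hz))) (Submodule.mem_sup_right hu)
        · rw [hf' d' hd']; exact zero_mem _
      have h2 : f' ∈ O.J (hZ k₀) := by
        have h3 : O.J (hZ k₀) = O.J (hZ k) := hk₀ k hk
        rw [h3]; exact h1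
      obtain ⟨z', hz', u', hu', he⟩ := Submodule.mem_sup.1 (h2 d)
      have h3 : O.lift d f' + z + u = (z' + z) + (u' + u) := by rw [← he]; abel
      have h4 : u' + u ∈ Z k := by
        have : u' + u = (O.lift d f' + z + u) - (z' + z) := by rw [h3]; abel
        rw [this]
        exact sub_mem hm (hmono hk (add_mem hz' hz))
      rw [h3]
      exact add_mem (add_mem hz' hz) (ih ⟨h4, add_mem hu' hu⟩)
  intro m hm
  obtain ⟨d, hd⟩ := exists_mem_FM (G := G) m
  exact key d ⟨hm, hd⟩

end acc

end WittGen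

end WittACC
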