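import Pool.Agent.helper37.Witt.Slots

/-!
Every nonzero two-sided ideal contains all `T k (disc^M * x)` for some `k`, `M`.
-/

namespace WittACC

variable {K : Type*} [CommRing K]

section pairs

/-- Pair index of a slot. -/
def pq (k : ℕ) : Fin (k + k) → Fin k := Fin.addCases (motive := fun _ => Fin k) id id

/-- First slot of a pair. -/
def sL (k : ℕ) (i : Fin k) : Fin (k + k) := Fin.castAdd k i
/-- Second slot of a pair. -/
def sR (k : ℕ) (i : Fin k) : Fin (k + k) := Fin.natAdd k i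

@[simp] lemma pq_left (k : ℕ) (i : Fin k) : pq k (sL k i) = i := by rw [pq, sL, Fin.addCases_left]; rfl
@[simp] lemma pq_right (k : ℕ) (i : Fin k) : pq k (sR k i) = i := by rw [pq, sR, Fin.addCases_right]; rfl

lemma sL_inj {k : ℕ} {i j : Fin k} : sL k i = sL k j ↔ i = j :=
  ⟨fun h => by have := congrArg (pq k) h; simpa using this, fun h => h ▸ rfl⟩
lemma sR_inj {k : ℕ} {i j : Fin k} : sR k i = sR k j ↔ i = j :=
  ⟨fun h => by have := congrArg (pq k) h; simpa using this, fun h => h ▸ rfl⟩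
lemma sL_lt_sR {k : ℕ} (i j : Fin k) : sL k i < sR k j := by
  rw [Fin.lt_def, sL, sR, Fin.val_castAdd, Fin.val_natAdd]; omega
lemma sL_ne_sR {k : ℕ} (i j : Fin k) : sL k i ≠ sR k j := (sL_lt_sR i j).ne

lemma prod_slots {M : Type*} [CommMonoid M] (k : ℕ) (f : Fin (k + k) → M) :
    ∏ a, f a = (∏ i, f (sL k i)) * ∏ i, f (sR k i) := Fin.prod_univ_add f

lemma slot_cases {k : ℕ} (a : Fin (k + k)) : (∃ i, a = sL k i) ∨ ∃ i, a = sR k i := by
  refine Fin.addCases (fun i => ?_) (fun i => ?_) a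
  · exact Or.inl ⟨i, rfl⟩
  · exact Or.inr ⟨i, rfl⟩

variable (K) in
/-- Product of differences of slots from different pairs. -/
noncomputable def sep (k : ℕ) : Lau K (Fin (k + k)) :=
  ∏ a, ∏ b, if pq k a = pq k b then 1 else w a - w b

lemma w_sub_dvd_sep (k : ℕ) {a b : Fin (k + k)} (h : pq k a ≠ pq k b) :
    (w a - w b : Lau K (Fin (k + k))) ∣ sep K k := by
  rw [sep]
  refine Dvd.dvd.trans ?_ (Finset.dvd_prod_of_mem _ (Finset.mem_univ a))
  refine Dvd.dvd.trans ?_ (Finset.dvd_prod_of_mem _ (Finset.mem_univ b))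
  rw [if_neg h]

variable (K) in
/-- Difference of the two slots of a pair. -/
noncomputable def gs (k : ℕ) (j : Fin k) : Lau K (Fin (k + k)) :=
  w (sL k j) - w (sR k j)

/-- The coefficient function of the operator. -/
noncomputable def Psi (k : ℕ) (g : Lau K (Fin k)) : Lau K (Fin (k + k)) :=
  sep K k ^ (k + k + 1) * ((∏ j, gs K k j ^ 2) * sub (sL k) g)

lemma pow_dvd_Psi (k : ℕ) (g : Lau K (Fin k)) {a b : Fin (k + k)} (h : pq k a ≠ pq k b) :
    (w a - w b : Lau K (Fin (k + k))) ^ (k + k + 1) ∣ Psi k g :=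
  Dvd.dvd.mul_right (pow_dvd_pow_of_dvd (w_sub_dvd_sep k h) _) _

lemma sub_sep (k : ℕ) (π : Equiv.Perm (Fin k)) :
    sub (π ∘ pq k) (sep K k) = disc K (Fin k) ^ 4 := by
  have h1 : sub (π ∘ pq k) (sep K k) = ∏ a : Fin (k + k), ∏ b : Fin (k + k),
      (fun i j : Fin k => if i = j then (1 : Lau K (Fin k)) else w (π i) - w (π j)) (pq k a) (pq k b) := by
    rw [sep, map_prod]
    refine Finset.prod_congr rfl fun a _ => ?_
    rw [map_prod]
    refine Finset.prod_congr rfl fun b _ => ?_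
    by_cases h : pq k a = pq k b
    · rw [if_pos h]; simp [h]
    · rw [if_neg h]; simp [h, sub_w]
  rw [h1]
  set f := (fun i j : Fin k => if i = j then (1 : Lau K (Fin k)) else w (π i) - w (π j)) with hf
  have h2 : ∀ i : Fin k, ∏ b : Fin (k + k), f i (pq k b) = (∏ j : Fin k, f i j) ^ 2 := by
    intro i
    rw [prod_slots]; simp [pow_two]
  simp only [h2]
  rw [prod_slots]
  simp only [pq_left, pq_right]
  rw [Finset.prod_pow, ← pow_two, ← pow_mul]
  congr 1
  have h3 := sub_disc (K := K) π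
  rw [← h3, disc, map_prod]
  refine Finset.prod_congr rfl fun i _ => ?_
  rw [map_prod]
  refine Finset.prod_congr rfl fun j _ => ?_
  rw [hf]
  by_cases h : i = j
  · simp [h]
  · simp [h, sub_w]

end pairs

namespace WittGen

variable {K : Type*} [Field K]

lemma lam_single {s r : ℕ} (σ : Fin s → Fin r) (a b : Fin s) :
    lam K σ a (Pi.single (Sum.inl b) 1) = (if a = b then 1 else 0) - (if a < b ∧ σ b = σ a then 1 else 0) := by
  have h : (Pi.single (Sum.inl b) 1 : Fin s ⊕ Fin r → ℤ) = Sum.elim (Pi.single b 1) 0 := by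
    ext c; rcases c with c | c
    · by_cases hc : c = b
      · subst hc; simp
      · simp [hc]
    · simp
  rw [h, lam_apply]
  congr 1
  · by_cases hab : a = b
    · subst hab; simp
    · simp [hab]
  · rw [Finset.sum_eq_single b]
    · simp
    · intro c _ hc; simp [hc]
    · intro h; exact absurd (Finset.mem_univ _) h

lemma dg_lam_w {s r : ℕ} (σ : Fin s → Fin r) (a b : Fin s) :
    dg (lam K σ a) (w (Sum.inl b) : Lau K (Fin s ⊕ Fin r)) =
      ((if a = b then 1 else 0) - (if a < b ∧ σ b = σ a then 1 else 0) : K) • w (Sum.inl b) := by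
  rw [w, dg_wz, lam_single]

variable (K) in
/-- The symmetric unit. -/
noncomputable def un (k : ℕ) : Lau K (Fin k) := ∏ j : Fin k, (-4 * w j ^ 2)

lemma sub_un (k : ℕ) (π : Equiv.Perm (Fin k)) : sub π (un K k) = un K k := by
  rw [un, map_prod, ← Equiv.prod_comp π (fun j => (-4 * w j ^ 2 : Lau K (Fin k)))]
  refine Finset.prod_congr rfl fun j _ => ?_
  rw [map_mul, map_pow, sub_w, map_neg, map_ofNat]

lemma isUnit_un [CharZero K] (k : ℕ) : IsUnit (un K k) := by
  rw [un, IsUnit.prod_univ_iff]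
  intro j
  refine IsUnit.mul ?_ ((wz_isUnit j 1).pow 2)
  have : (-4 : Lau K (Fin k)) = algebraMap K _ (-4) := by rw [map_neg, map_ofNat]
  rw [this]
  exact (IsUnit.mk0 (-4 : K) (by norm_num)).map _

lemma contr_pair (k : ℕ) (π : Equiv.Perm (Fin k)) (g y : Lau K (Fin k)) :
    contr (π ∘ pq k) (sub Sum.inl (Psi k g) * sub Sum.inr y)
      = un K k * (disc K (Fin k) ^ (4 * (k + k + 1)) * sub π g) * y := by
  set σ : Fin (k + k) → Fin k := π ∘ pq k with hσ
  have hσl : ∀ j, σ (sL k j) = π j := fun j => by simp [hσ]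
  have hσr : ∀ j, σ (sR k j) = π j := fun j => by simp [hσ]
  set g' : Fin k → Lau K (Fin (k + k) ⊕ Fin k) := fun j => sub Sum.inl (gs K k j) with hg'
  have hg'w : ∀ j, g' j = w (Sum.inl (sL k j)) - w (Sum.inl (sR k j)) := fun j => by
    rw [hg']; simp [gs, sub_w]
  set Z : Lau K (Fin (k + k) ⊕ Fin k) :=
    sub Sum.inl (sep K k ^ (k + k + 1) * sub (sL k) g) * sub Sum.inr y with hZ
  have hx : sub Sum.inl (Psi k g) * sub Sum.inr y = (∏ j, g' j ^ 2) * Z := by
    rw [hZ, hg', Psi]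
    simp only [map_mul, map_prod, map_pow]
    ring
  have hlt : ∀ j : Fin k, sL k j < sR k j := fun j => sL_lt_sR j j
  have hne : ∀ i j : Fin k, sL k i ≠ sR k j := sL_ne_sR
  have d1 : ∀ i j, i ≠ j → dg (lam K σ (sL k i)) (g' j) = 0 := by
    intro i j hij
    rw [hg'w, map_sub, dg_lam_w, dg_lam_w, hσl, hσl, hσr]
    have h1 : sL k i ≠ sL k j := fun h => hij (sL_inj.1 h)
    have h2 : π j ≠ π i := fun h => hij (π.injective h).symm
    simp [h1, h2, hne]
  have d2 : ∀ i j, i ≠ j → dg (lam K σ (sR k i)) (g' j) = 0 := by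
    intro i j hij
    rw [hg'w, map_sub, dg_lam_w, dg_lam_w, hσl, hσr, hσr]
    have h1 : sR k i ≠ sR k j := fun h => hij (sR_inj.1 h)
    have h2 : π j ≠ π i := fun h => hij (π.injective h).symm
    simp [h1, h2, (hne _ _).symm]
  have d3 : ∀ j, dg (lam K σ (sL k j)) (g' j)
      = w (Sum.inl (sL k j)) + w (Sum.inl (sR k j)) := by
    intro j
    rw [hg'w, map_sub, dg_lam_w, dg_lam_w, hσl, hσr]
    simp [hne, hlt]
  have d4 : ∀ j, dg (lam K σ (sR k j)) (g' j) = - w (Sum.inl (sR k j)) := by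
    intro j
    rw [hg'w, map_sub, dg_lam_w, dg_lam_w, hσl, hσr]
    simp [(hne _ _).symm, (hlt j).le]
  have key := dg_prod_sq (fun j => lam K σ (sL k j)) (fun j => lam K σ (sR k j)) g'
    d1 d2 Finset.univ Z
  have hfun : (fun c : Fin (k + k) ⊕ Fin k → ℤ => ∏ a : Fin (k + k), lam K σ a c)
      = fun c => ∏ i : Fin k, (lam K σ (sL k i) c * lam K σ (sR k i) c) := by
    ext c
    rw [prod_slots, Finset.prod_mul_distrib]
  have hker : ∀ z ∈ Ideal.span (g' '' ((Finset.univ : Finset (Fin k)) : Set (Fin k))),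
      sub (Sum.elim σ id) z = 0 := by
    intro z hz
    have : Ideal.span (g' '' ((Finset.univ : Finset (Fin k)) : Set (Fin k)))
        ≤ RingHom.ker (sub (Sum.elim σ id) : Lau K (Fin (k + k) ⊕ Fin k) →ₐ[K] Lau K (Fin k)) := by
      rw [Ideal.span_le]
      rintro _ ⟨j, -, rfl⟩
      rw [SetLike.mem_coe, RingHom.mem_ker, hg'w, map_sub, sub_w, sub_w]
      simp [hσl, hσr]
    exact this hz
  have k2 := hker _ key
  rw [map_sub, sub_eq_zero] at k2
  rw [contr, hx, hfun, k2]
  simp only [d3, d4]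
  rw [map_mul, map_prod]
  have e1 : ∀ j : Fin k, sub (Sum.elim σ id) (2 * (w (Sum.inl (sL k j)) +
      w (Sum.inl (sR k j))) * -w (Sum.inl (sR k j)) : Lau K (Fin (k + k) ⊕ Fin k))
      = -4 * w (π j) ^ 2 := by
    intro j
    rw [map_mul, map_mul, map_add, map_neg, sub_w, sub_w]
    simp only [Sum.elim_inl, hσl, hσr, map_ofNat]
    ring
  simp only [e1]
  rw [Equiv.prod_comp π (fun j => (-4 * w j ^ 2 : Lau K (Fin k)))]
  have e2 : sub (Sum.elim σ id) Z = disc K (Fin k) ^ (4 * (k + k + 1)) * sub π g * y := by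
    rw [hZ, map_mul, sub_sub, sub_sub, Sum.elim_comp_inl, Sum.elim_comp_inr, sub_id, map_mul, map_pow,
      hσ, sub_sep, sub_sub, pow_mul]
    have : (π ∘ pq k) ∘ sL k = π := by ext j; simp
    rw [this]
  rw [e2, un]
  ring

lemma adOp_Psi_T_lt {U : Type*} [Ring U] [Algebra K U] (G : WittGen K U) {k r : ℕ} (hr : r < k)
    (g : Lau K (Fin k)) (y : Lau K (Fin r)) : G.adOp (k + k) (Psi k g) (G.T r y) = 0 := by
  rw [adOp_T, Finset.sum_eq_zero, map_zero]
  intro σ _
  obtain ⟨i, j, hij, h⟩ := Fintype.exists_ne_map_eq_of_card_lt (fun i : Fin k => σ (sL k i))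
    (by simpa using hr)
  exact contr_eq_zero σ (a := sL k i) (b := sL k j) h
    (pow_dvd_Psi k g (by simpa using hij)) y

lemma adOp_Psi_F {U : Type*} [Ring U] [Algebra K U] (G : WittGen K U) {k : ℕ}
    (g : Lau K (Fin k)) {u : U} (hu : u ∈ G.F k) : G.adOp (k + k) (Psi k g) u = 0 := by
  have : G.F k ≤ LinearMap.ker (G.adOp (k + k) (Psi k g)) := G.F_le fun l hl => by
    rw [LinearMap.mem_ker]
    have h1 : G.W l = G.T l.length (mon l.get) := by rw [T_mon, List.ofFn_get]
    rw [h1]; exact G.adOp_Psi_T_lt hl g _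
  exact this hu

lemma adOp_Psi_T {U : Type*} [Ring U] [Algebra K U] (G : WittGen K U) {k : ℕ}
    (g y : Lau K (Fin k)) : G.adOp (k + k) (Psi k g) (G.T k y) =
      G.T k (∑ π : Equiv.Perm (Fin k), un K k * (disc K (Fin k) ^ (4 * (k + k + 1)) * sub π g) * y) := by
  rw [adOp_T]
  congr 1
  symm
  refine Finset.sum_of_injOn (fun π : Equiv.Perm (Fin k) => (π ∘ pq k : Fin (k + k) → Fin k)) ?_ ?_ ?_ ?_
  · intro π _ ρ _ h
    ext i
    have := congrFun h (sL k i)
    simpa using congrArg Fin.val this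
  · intro π _; simp
  · intro σ _ hσ
    by_contra hne
    have hinj : ∀ a b, σ a = σ b → pq k a = pq k b := by
      intro a b hab
      by_contra hq
      exact hne (contr_eq_zero σ hab (pow_dvd_Psi k g hq) y)
    have h1 : Function.Injective (fun i : Fin k => σ (sL k i)) := by
      intro i j hij
      simpa using hinj _ _ hij
    have h2 : Function.Bijective (fun i : Fin k => σ (sL k i)) :=
      Finite.injective_iff_bijective.1 h1
    apply hσ
    refine ⟨Equiv.ofBijective _ h2, by simp, ?_⟩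
    ext a
    obtain ⟨i, rfl⟩ | ⟨i, rfl⟩ := slot_cases a
    · simp
    · obtain ⟨j, hj⟩ := h2.2 (σ (sR k i))
      have := hinj _ _ hj
      simp only [pq_left, pq_right] at this
      subst this
      simp only [Function.comp, pq_right, Equiv.ofBijective_apply]
      exact congrArg Fin.val hj
  · intro π _
    exact (contr_pair k π g y).symm

end WittGen

end WittACC
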