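import Pool.Agent.helper37.Witt.Laurent

/-!
Algebras generated by a family `E m`, `m ∈ ℤ`, with the Witt relations; the maps `T n` from Laurent
polynomials, the degree filtration.
-/

namespace WittACC

/-- An algebra generated by elements `E m` satisfying the relations of the Witt algebra. -/
structure WittGen (K : Type*) [Field K] (U : Type*) [Ring U] [Algebra K U] where
  E : ℤ → U
  comm : ∀ m n, E m * E n - E n * E m = ((m : K) - n) • E (m + n)
  gen : Algebra.adjoin K (Set.range E) = ⊤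

namespace WittGen

variable {K : Type*} [Field K] {U : Type*} [Ring U] [Algebra K U] (G : WittGen K U)

/-- The word. -/
def W (l : List ℤ) : U := (l.map G.E).prod

@[simp] lemma W_nil : G.W [] = 1 := rfl
@[simp] lemma W_cons (m : ℤ) (l : List ℤ) : G.W (m :: l) = G.E m * G.W l := by simp [W]
lemma W_append (l l' : List ℤ) : G.W (l ++ l') = G.W l * G.W l' := by simp [W]

/-- Span of the words of length `< d`. -/
def F (d : ℕ) : Submodule K U := Submodule.span K {x | ∃ l : List ℤ, l.length < d ∧ G.W l = x}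

lemma W_mem_F {d : ℕ} {l : List ℤ} (h : l.length < d) : G.W l ∈ G.F d :=
  Submodule.subset_span ⟨l, h, rfl⟩

lemma F_mono {d e : ℕ} (h : d ≤ e) : G.F d ≤ G.F e :=
  Submodule.span_mono (by rintro x ⟨l, hl, rfl⟩; exact ⟨l, hl.trans_le h, rfl⟩)

lemma F_zero : G.F 0 = ⊥ := by
  rw [F, Submodule.span_eq_bot]; rintro x ⟨l, hl, -⟩; simp at hl

lemma F_le {d : ℕ} {N : Submodule K U} (h : ∀ l : List ℤ, l.length < d → G.W l ∈ N) : G.F d ≤ N :=
  Submodule.span_le.2 (by rintro x ⟨l, hl, rfl⟩; exact h l hl)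

lemma E_mul_mem {d : ℕ} (m : ℤ) {x : U} (hx : x ∈ G.F d) : G.E m * x ∈ G.F (d + 1) := by
  have : G.F d ≤ (G.F (d + 1)).comap (LinearMap.mulLeft K (G.E m)) := G.F_le fun l hl => by
    simp only [Submodule.mem_comap, LinearMap.mulLeft_apply]
    rw [← G.W_cons]; exact G.W_mem_F (by simpa using hl)
  exact this hx

lemma mul_E_mem {d : ℕ} (m : ℤ) {x : U} (hx : x ∈ G.F d) : x * G.E m ∈ G.F (d + 1) := by
  have : G.F d ≤ (G.F (d + 1)).comap (LinearMap.mulRight K (G.E m)) := G.F_le fun l hl => by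
    simp only [Submodule.mem_comap, LinearMap.mulRight_apply]
    have : G.W l * G.E m = G.W (l ++ [m]) := by simp [W_append]
    rw [this]; exact G.W_mem_F (by simpa using hl)
  exact this hx

lemma exists_mem_F (x : U) : ∃ d, x ∈ G.F d := by
  have hx : x ∈ Algebra.adjoin K (Set.range G.E) := by rw [G.gen]; trivial
  rw [← Subalgebra.mem_toSubmodule, Algebra.adjoin_eq_span] at hx
  induction hx using Submodule.span_induction with
  | mem x hx =>
    obtain ⟨l, rfl⟩ : ∃ l : List ℤ, G.W l = x := by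
      induction hx using Submonoid.closure_induction with
      | mem x hx => obtain ⟨m, rfl⟩ := hx; exact ⟨[m], by simp⟩
      | one => exact ⟨[], rfl⟩
      | mul x y _ _ hx hy =>
        obtain ⟨l, rfl⟩ := hx; obtain ⟨l', rfl⟩ := hy; exact ⟨l ++ l', G.W_append _ _⟩
    exact ⟨l.length + 1, G.W_mem_F (Nat.lt_succ_self _)⟩
  | zero => exact ⟨0, zero_mem _⟩
  | add x y _ _ hx hy =>
    obtain ⟨d, hd⟩ := hx; obtain ⟨e, he⟩ := hy
    exact ⟨max d e, add_mem (G.F_mono (le_max_left _ _) hd) (G.F_mono (le_max_right _ _) he)⟩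
  | smul c x _ hx => obtain ⟨d, hd⟩ := hx; exact ⟨d, Submodule.smul_mem _ _ hd⟩

lemma perm_sub_mem {l l' : List ℤ} (h : l.Perm l') : G.W l - G.W l' ∈ G.F l.length := by
  induction h with
  | nil => simp
  | cons x _ ih =>
    rw [W_cons, W_cons, ← mul_sub]; exact G.E_mul_mem x ih
  | swap x y l =>
    have : G.W (y :: x :: l) - G.W (x :: y :: l) = ((y : K) - x) • G.W ((y + x) :: l) := by
      simp only [W_cons]
      rw [← mul_assoc, ← mul_assoc, ← sub_mul, G.comm, smul_mul_assoc]
    rw [this]; exact Submodule.smul_mem _ _ (G.W_mem_F (by simp))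
  | trans h1 _ ih1 ih2 =>
    have := add_mem ih1 (h1.length_eq ▸ ih2)
    simpa using this

/-- The map `T n` from Laurent polynomials in `n` variables. -/
noncomputable def T (n : ℕ) : Lau K (Fin n) →ₗ[K] U := lin fun a => G.W (List.ofFn a)

@[simp] lemma T_mon (n : ℕ) (a : Fin n → ℤ) : G.T n (mon a) = G.W (List.ofFn a) := by simp [T]

lemma T_mem_F (n : ℕ) (x : Lau K (Fin n)) : G.T n x ∈ G.F (n + 1) := by
  induction x using lau_induction with
  | h0 => simp
  | hs c x hx => rw [map_smul]; exact Submodule.smul_mem _ _ hx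
  | ha x y hx hy => rw [map_add]; exact add_mem hx hy
  | hm a => rw [T_mon]; exact G.W_mem_F (by simp)

lemma exists_T_add {n : ℕ} {u : U} (hu : u ∈ G.F (n + 1)) : ∃ x, ∃ v ∈ G.F n, u = G.T n x + v := by
  have : G.F (n + 1) ≤ LinearMap.range (G.T n) ⊔ G.F n := G.F_le fun l hl => by
    rcases Nat.lt_succ_iff_lt_or_eq.1 hl with h | h
    · exact Submodule.mem_sup_right (G.W_mem_F h)
    · subst h
      refine Submodule.mem_sup_left ⟨mon l.get, ?_⟩
      rw [T_mon, List.ofFn_get]
  obtain ⟨_, ⟨x, rfl⟩, v, hv, rfl⟩ := Submodule.mem_sup.1 (this hu)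
  exact ⟨x, v, hv, rfl⟩

/-- Adding one variable on the right. -/
lemma T_succ_mon (n : ℕ) (a : Fin n → ℤ) (m : ℤ) :
    G.T (n + 1) (mon (Fin.snoc a m : Fin (n + 1) → ℤ)) = G.T n (mon a) * G.E m := by
  rw [T_mon, T_mon, List.ofFn_succ']
  simp [List.concat_eq_append, W_append]

lemma push_castSucc (n : ℕ) (a : Fin n → ℤ) :
    push (Fin.castSucc : Fin n → Fin (n + 1)) a = Fin.snoc a 0 := by
  ext y
  rw [push_apply]
  refine Fin.lastCases ?_ (fun i => ?_) y
  · rw [Fin.snoc_last]
    exact Finset.sum_eq_zero fun x _ => by rw [if_neg (Fin.castSucc_lt_last x).ne]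
  · rw [Fin.snoc_castSucc]; simp

lemma snoc_add_single (n : ℕ) (a : Fin n → ℤ) (m : ℤ) :
    (Fin.snoc a 0 : Fin (n + 1) → ℤ) + Pi.single (Fin.last n) m = Fin.snoc a m := by
  ext y
  refine Fin.lastCases ?_ (fun i => ?_) y
  · simp
  · simp

lemma T_succ (n : ℕ) (x : Lau K (Fin n)) (m : ℤ) :
    G.T (n + 1) (sub Fin.castSucc x * wz (Fin.last n) m) = G.T n x * G.E m := by
  induction x using lau_induction with
  | h0 => simp
  | hs c x hx => simp [hx]
  | ha x y hx hy => simp [hx, hy, add_mul]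
  | hm a =>
    rw [← T_succ_mon, sub_mon, push_castSucc, wz, mon_mul, snoc_add_single]

/-- The adjoint action on `T`. -/
noncomputable def L (n : ℕ) (m : ℤ) : Lau K (Fin n) →ₗ[K] Lau K (Fin n) :=
  ∑ i : Fin n, LinearMap.mulLeft K (wz i m) ∘ₗ ((m : K) • LinearMap.id - dg (ev i))

lemma L_apply (n : ℕ) (m : ℤ) (x : Lau K (Fin n)) :
    L (K := K) n m x = ∑ i : Fin n, wz i m * ((m : K) • x - dg (ev i) x) := by
  simp [L]

lemma L_mon (n : ℕ) (m : ℤ) (a : Fin n → ℤ) :
    L (K := K) n m (mon a) = ∑ i : Fin n, ((m : K) - a i) • mon (a + Pi.single i m) := by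
  rw [L_apply]
  refine Finset.sum_congr rfl fun i _ => ?_
  rw [dg_mon, ev_apply, ← sub_smul, mul_smul_comm, wz, mon_mul, add_comm]

/-- The adjoint action. -/
def ad (m : ℤ) : U →ₗ[K] U := LinearMap.mulLeft K (G.E m) - LinearMap.mulRight K (G.E m)

lemma ad_apply (m : ℤ) (x : U) : G.ad m x = G.E m * x - x * G.E m := by simp [ad]

lemma ad_T_mon (m : ℤ) : ∀ (n : ℕ) (a : Fin n → ℤ),
    G.ad m (G.T n (mon a)) = ∑ i : Fin n, ((m : K) - a i) • G.T n (mon (a + Pi.single i m)) := by
  intro n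
  induction n with
  | zero => intro a; simp [ad_apply]
  | succ n ih =>
    intro a
    obtain ⟨b, k, rfl⟩ : ∃ (b : Fin n → ℤ) (k : ℤ), a = Fin.snoc b k :=
      ⟨Fin.init a, a (Fin.last n), (Fin.snoc_init_self a).symm⟩
    rw [T_succ_mon, Fin.sum_univ_castSucc]
    have h1 : ∀ i : Fin n, (Fin.snoc b k : Fin (n + 1) → ℤ) + Pi.single i.castSucc m
        = Fin.snoc (b + Pi.single i m) k := by
      intro i; ext y
      refine Fin.lastCases ?_ (fun j => ?_) y
      · simp
      · simp only [Pi.add_apply, Fin.snoc_castSucc]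
        by_cases h : j = i
        · subst h; simp
        · rw [Pi.single_eq_of_ne h, Pi.single_eq_of_ne]
          simpa using h
    have h2 : (Fin.snoc b k : Fin (n + 1) → ℤ) + Pi.single (Fin.last n) m = Fin.snoc b (k + m) := by
      ext y
      refine Fin.lastCases ?_ (fun j => ?_) y
      · simp
      · simp
    simp only [h1, h2, T_succ_mon, Fin.snoc_castSucc, Fin.snoc_last]
    have h3 : ∀ i : Fin n, ((m : K) - b i) • (G.T n (mon (b + Pi.single i m)) * G.E k)
        = (((m : K) - b i) • G.T n (mon (b + Pi.single i m))) * G.E k := fun i => by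
      rw [smul_mul_assoc]
    simp only [h3]
    rw [← Finset.sum_mul, ← ih b, ad_apply, ad_apply]
    have h4 : ((m : K) - k) • (G.T n (mon b) * G.E (k + m))
        = G.T n (mon b) * (G.E m * G.E k - G.E k * G.E m) := by
      rw [G.comm, mul_smul_comm, add_comm k m]
    rw [h4]
    noncomm_ring

lemma ad_T (m : ℤ) (n : ℕ) (x : Lau K (Fin n)) : G.ad m (G.T n x) = G.T n (L n m x) := by
  have : G.ad m ∘ₗ G.T n = G.T n ∘ₗ L n m := lau_ext fun a => by
    simp only [LinearMap.comp_apply]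
    rw [ad_T_mon, L_mon, map_sum]
    simp
  exact congrArg (fun f => f x) this

end WittGen

end WittACC
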