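import Pool.Agent.helper37.Witt.Core

/-!
The discriminant-like element `disc`, its symmetry and semi-invariance.
-/

namespace WittACC

variable {K : Type*} [CommRing K]

section disc

variable {X : Type*} [Fintype X] [DecidableEq X]

variable (K X) in
/-- `∏_{i ≠ j} (w_i - w_j)`. -/
noncomputable def disc : Lau K X := ∏ i : X, ∏ j : X, if i = j then 1 else w i - w j

lemma sub_w {Y : Type*} [DecidableEq Y] (f : X → Y) (x : X) : (sub f (w x) : Lau K Y) = w (f x) := by
  simp [w]

lemma sub_disc (π : Equiv.Perm X) : sub π (disc K X) = disc K X := by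
  rw [disc, map_prod]
  simp only [map_prod]
  have : ∀ i j : X, (sub π (if i = j then (1 : Lau K X) else w i - w j) : Lau K X)
      = if π i = π j then 1 else w (π i) - w (π j) := by
    intro i j
    by_cases h : i = j
    · subst h; simp
    · rw [if_neg h, if_neg (fun h' => h (π.injective h')), map_sub, sub_w, sub_w]
  simp only [this]
  rw [← Equiv.prod_comp π (fun i => ∏ j : X, if i = j then (1 : Lau K X) else w i - w j)]
  refine Finset.prod_congr rfl fun i _ => ?_
  rw [← Equiv.prod_comp π (fun j => if π i = j then (1 : Lau K X) else w (π i) - w j)]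

lemma w_sub_dvd_disc {i j : X} (h : i ≠ j) : (w i - w j : Lau K X) ∣ disc K X := by
  rw [disc]
  refine Dvd.dvd.trans ?_ (Finset.dvd_prod_of_mem _ (Finset.mem_univ i))
  refine Dvd.dvd.trans ?_ (Finset.dvd_prod_of_mem _ (Finset.mem_univ j))
  rw [if_neg h]

lemma sq_dvd_disc {i j : X} (h : i ≠ j) : (w i - w j : Lau K X) ^ 2 ∣ disc K X := by
  have h1 : (w i - w j : Lau K X) ^ 2 ∣ (w i - w j) * (w j - w i) := ⟨-1, by ring⟩
  refine h1.trans ?_
  have h2 : (w i - w j : Lau K X) ∣ ∏ l : X, if i = l then 1 else w i - w l := by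
    refine Dvd.dvd.trans ?_ (Finset.dvd_prod_of_mem _ (Finset.mem_univ j))
    rw [if_neg h]
  have h3 : (w j - w i : Lau K X) ∣ ∏ l : X, if j = l then 1 else w j - w l := by
    refine Dvd.dvd.trans ?_ (Finset.dvd_prod_of_mem _ (Finset.mem_univ i))
    rw [if_neg h.symm]
  refine (mul_dvd_mul h2 h3).trans ?_
  have h4 := Finset.mul_prod_erase Finset.univ
    (fun i : X => ∏ j : X, if i = j then (1 : Lau K X) else w i - w j) (Finset.mem_univ i)
  rw [disc, ← h4]
  exact mul_dvd_mul_left _ (Finset.dvd_prod_of_mem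
    (fun i : X => ∏ j : X, if i = j then (1 : Lau K X) else w i - w j)
    (Finset.mem_erase.2 ⟨h.symm, Finset.mem_univ j⟩))

/-- The derivation `- ∑ w_i^m θ_i`. -/
noncomputable def Dd (m : ℤ) : Derivation K (Lau K X) (Lau K X) :=
  - ∑ i : X, (wz i m : Lau K X) • der (ev i)

lemma Dd_apply (m : ℤ) (x : Lau K X) : Dd m x = - ∑ i : X, wz i m * dg (ev i) x := by
  have h : ∀ s : Finset X, (∑ i ∈ s, (wz i m : Lau K X) • der (ev i)) x
      = ∑ i ∈ s, wz i m * dg (ev i) x := by
    intro s
    induction s using Finset.induction_on with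
    | empty => simp
    | insert i s hi ih => rw [Finset.sum_insert hi, Finset.sum_insert hi, Derivation.add_apply, ih]; simp
  rw [Dd, Derivation.neg_apply, h]

lemma Dd_w (m : ℤ) (i : X) : Dd m (w i : Lau K X) = - wz i (m + 1) := by
  rw [Dd_apply, Finset.sum_eq_single i]
  · rw [w, dg_wz]; simp [← wz_add]
  · intro j _ hj
    rw [w, dg_wz]; simp [Pi.single_eq_of_ne hj]
  · intro h; exact absurd (Finset.mem_univ _) h

/-- Semi-invariant elements. -/
def SI (f : Lau K X) : Prop := ∀ m : ℤ, f ∣ Dd m f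

lemma SI.one : SI (1 : Lau K X) := fun m => by simp

lemma SI.mul {f g : Lau K X} (hf : SI f) (hg : SI g) : SI (f * g) := fun m => by
  rw [Derivation.leibniz, smul_eq_mul, smul_eq_mul]
  exact dvd_add (mul_dvd_mul_left _ (hg m)) (by rw [mul_comm g]; exact mul_dvd_mul_right (hf m) _)

lemma SI.pow {f : Lau K X} (hf : SI f) (e : ℕ) : SI (f ^ e) := by
  induction e with
  | zero => simpa using SI.one
  | succ e ih => rw [pow_succ]; exact ih.mul hf

lemma SI.prod {ι : Type*} (s : Finset ι) (f : ι → Lau K X) (hf : ∀ i, SI (f i)) :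
    SI (∏ i ∈ s, f i) := by
  classical
  induction s using Finset.induction_on with
  | empty => simpa using SI.one
  | insert i s hi ih => rw [Finset.prod_insert hi]; exact (hf i).mul ih

lemma SI.w_sub (i j : X) : SI (w i - w j : Lau K X) := fun m => by
  rw [map_sub, Dd_w, Dd_w]
  have : (-wz i (m + 1) - -wz j (m + 1) : Lau K X) = -(wz i (m + 1) - wz j (m + 1)) := by ring
  rw [this]
  exact (sub_dvd_wz i j (m + 1)).neg_right

lemma SI.disc : SI (disc K X) :=
  SI.prod _ _ fun i => SI.prod _ _ fun j => by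
    split_ifs
    · exact SI.one
    · exact SI.w_sub i j

end disc

lemma disc_succ (n : ℕ) : disc K (Fin (n + 1)) = sub Fin.castSucc (disc K (Fin n)) *
    (∏ i : Fin n, (w i.castSucc - w (Fin.last n))) * ∏ i : Fin n, (w (Fin.last n) - w i.castSucc) := by
  rw [disc, Fin.prod_univ_castSucc]
  have h1 : ∀ i : Fin n, (∏ j : Fin (n + 1), if i.castSucc = j then (1 : Lau K (Fin (n + 1)))
      else w i.castSucc - w j) = (∏ j : Fin n, if i = j then 1 else w i.castSucc - w j.castSucc)
        * (w i.castSucc - w (Fin.last n)) := by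
    intro i
    rw [Fin.prod_univ_castSucc, if_neg (Fin.castSucc_lt_last i).ne]
    simp
  have h2 : (∏ j : Fin (n + 1), if Fin.last n = j then (1 : Lau K (Fin (n + 1)))
      else w (Fin.last n) - w j) = ∏ j : Fin n, (w (Fin.last n) - w j.castSucc) := by
    rw [Fin.prod_univ_castSucc, if_pos rfl, mul_one]
    exact Finset.prod_congr rfl fun j _ => by rw [if_neg (Fin.castSucc_lt_last j).ne']
  rw [h2]
  simp only [h1]
  rw [Finset.prod_mul_distrib]
  congr 2
  rw [disc, map_prod]
  refine Finset.prod_congr rfl fun i _ => ?_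
  rw [map_prod]
  refine Finset.prod_congr rfl fun j _ => ?_
  split_ifs
  · simp
  · rw [map_sub, sub_w, sub_w]

/-- The adjoint action on multiples of `disc^e`. -/
lemma exists_omega {K : Type*} [Field K] (n e : ℕ) (m : ℤ) : ∃ ω : Lau K (Fin n), ∀ x : Lau K (Fin n),
    WittGen.L n m (disc K (Fin n) ^ e * x) = disc K (Fin n) ^ e * (Dd m x + ω * x) := by
  obtain ⟨ω, hω⟩ := (SI.disc.pow e : SI (disc K (Fin n) ^ e)) m
  refine ⟨ω + (m : K) • ∑ i : Fin n, wz i m, fun x => ?_⟩
  have h1 : ∀ y : Lau K (Fin n), WittGen.L n m y = Dd m y + ((m : K) • ∑ i : Fin n, wz i m) * y := by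
    intro y
    rw [WittGen.L_apply, Dd_apply]
    simp only [mul_sub, Finset.sum_sub_distrib]
    rw [smul_mul_assoc, Finset.sum_mul, Finset.smul_sum]
    simp only [mul_smul_comm]
    ring
  rw [h1, Derivation.leibniz, hω]
  simp only [smul_eq_mul]
  ring

end WittACC
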