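import Mathlib

/-!
Laurent polynomial rings `K[w_x^{±1} : x ∈ X]`, diagonal operators and substitution of variables.
-/

namespace WittACC

open AddMonoidAlgebra

/-- Laurent polynomials in the variables `X`. -/
abbrev Lau (K : Type*) [CommRing K] (X : Type*) := AddMonoidAlgebra K (X → ℤ)

variable {K : Type*} [CommRing K] {X Y Z : Type*}

/-- The monomial with exponent `a`. -/
noncomputable def mon (a : X → ℤ) : Lau K X := single a 1

lemma mon_def (a : X → ℤ) : (mon a : Lau K X) = single a 1 := rfl

lemma mon_mul (a b : X → ℤ) : (mon a : Lau K X) * mon b = mon (a + b) := by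
  simp [mon, single_mul_single]

lemma mon_zero : (mon (0 : X → ℤ) : Lau K X) = 1 := rfl

lemma mon_mul_neg (a : X → ℤ) : (mon a : Lau K X) * mon (-a) = 1 := by
  rw [mon_mul]; simp [mon_zero]

lemma mon_isUnit (a : X → ℤ) : IsUnit (mon a : Lau K X) :=
  IsUnit.of_mul_eq_one _ (mon_mul_neg a)

/-- Linear map on Laurent polynomials given on monomials. -/
noncomputable def lin {V : Type*} [AddCommGroup V] [Module K V] (f : (X → ℤ) → V) :
    Lau K X →ₗ[K] V :=
  (AddMonoidAlgebra.basis (X → ℤ) K).constr K f

@[simp] lemma lin_mon {V : Type*} [AddCommGroup V] [Module K V] (f : (X → ℤ) → V) (a : X → ℤ) :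
    lin (K := K) f (mon a) = f a := by
  have := (AddMonoidAlgebra.basis (X → ℤ) K).constr_basis K f a
  simpa [lin, mon] using this

lemma lau_ext {V : Type*} [AddCommGroup V] [Module K V] {f g : Lau K X →ₗ[K] V}
    (h : ∀ a, f (mon a) = g (mon a)) : f = g :=
  (AddMonoidAlgebra.basis (X → ℤ) K).ext (by intro a; simpa [mon] using h a)

lemma lau_ext_apply {V : Type*} [AddCommGroup V] [Module K V] {f g : Lau K X →ₗ[K] V}
    (h : ∀ a, f (mon a) = g (mon a)) (x : Lau K X) : f x = g x := by
  rw [lau_ext h]

lemma lau_induction {P : Lau K X → Prop} (x : Lau K X) (h0 : P 0)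
    (hm : ∀ a, P (mon a)) (hs : ∀ (c : K) x, P x → P (c • x))
    (ha : ∀ x y, P x → P y → P (x + y)) : P x := by
  induction x using AddMonoidAlgebra.induction_linear with
  | zero => exact h0
  | add x y hx hy => exact ha x y hx hy
  | single m r =>
    have : (single m r : Lau K X) = r • mon m := by simp [mon]
    rw [this]; exact hs _ _ (hm m)

/-- Two-variable extensionality for bilinear maps. -/
lemma lau_ext₂ {V : Type*} [AddCommGroup V] [Module K V] {f g : Lau K X →ₗ[K] Lau K Y →ₗ[K] V}
    (h : ∀ a b, f (mon a) (mon b) = g (mon a) (mon b)) : f = g :=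
  lau_ext fun a => lau_ext fun b => h a b

/-- The diagonal operator with eigenvalues `f`. -/
noncomputable def dg (f : (X → ℤ) → K) : Lau K X →ₗ[K] Lau K X := lin fun a => f a • mon a

@[simp] lemma dg_mon (f : (X → ℤ) → K) (a : X → ℤ) : dg f (mon a) = f a • mon a := by
  simp [dg]

lemma dg_one : dg (1 : (X → ℤ) → K) = LinearMap.id := lau_ext fun a => by simp

lemma dg_mul (f g : (X → ℤ) → K) : dg (f * g) = dg f ∘ₗ dg g := lau_ext fun a => by
  simp [smul_smul, mul_comm]

lemma dg_mul_apply (f g : (X → ℤ) → K) (x : Lau K X) : dg (f * g) x = dg f (dg g x) := by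
  rw [dg_mul]; rfl

lemma dg_comm (f g : (X → ℤ) → K) (x : Lau K X) : dg f (dg g x) = dg g (dg f x) := by
  rw [← dg_mul_apply, ← dg_mul_apply, mul_comm]

/-- The Leibniz rule for diagonal operators with additive eigenvalues. -/
lemma dg_leib (f : (X → ℤ) →+ K) (x y : Lau K X) :
    dg f (x * y) = dg f x * y + x * dg f y := by
  induction x using lau_induction with
  | h0 => simp
  | hs c x hx => simp [hx]
  | ha x x' hx hx' => simp [add_mul, hx, hx']; ring
  | hm a =>
    induction y using lau_induction with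
    | h0 => simp
    | hs c x hx => simp [hx]
    | ha x x' hx hx' => simp [mul_add, hx, hx']; ring
    | hm b => simp [mon_mul, add_smul]

/-- Diagonal derivation as a `Derivation`. -/
noncomputable def der (f : (X → ℤ) →+ K) : Derivation K (Lau K X) (Lau K X) :=
  Derivation.mk' (dg f) (fun x y => by rw [dg_leib]; simp [mul_comm]; ring)

@[simp] lemma der_apply (f : (X → ℤ) →+ K) (x : Lau K X) : der f x = dg f x := rfl

/-- `θ_x = w_x ∂/∂w_x`. -/
def ev (x : X) : (X → ℤ) →+ K :=
  (Int.castAddHom K).comp (Pi.evalAddMonoidHom (fun _ : X => ℤ) x)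

@[simp] lemma ev_apply (x : X) (a : X → ℤ) : (ev x : (X → ℤ) →+ K) a = (a x : K) := rfl

section sub

variable [Fintype X] [DecidableEq Y] [DecidableEq Z]

/-- Push-forward of exponents along a map of variables. -/
def push (f : X → Y) : (X → ℤ) →+ (Y → ℤ) where
  toFun a y := ∑ x, if f x = y then a x else 0
  map_zero' := by ext; simp
  map_add' a b := by
    ext y; simp only [Pi.add_apply, ← Finset.sum_add_distrib]
    exact Finset.sum_congr rfl fun x _ => by split_ifs <;> simp

lemma push_apply (f : X → Y) (a : X → ℤ) (y : Y) : push f a y = ∑ x, if f x = y then a x else 0 :=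
  rfl

lemma push_push [Fintype Y] (f : X → Y) (g : Y → Z) (a : X → ℤ) : push g (push f a) = push (g ∘ f) a := by
  ext z
  simp only [push_apply]
  simp only [Function.comp]
  have : ∀ y, (if g y = z then ∑ x, (if f x = y then a x else 0) else 0)
      = ∑ x, if f x = y then (if g (f x) = z then a x else 0) else 0 := by
    intro y
    split_ifs with h
    · refine Finset.sum_congr rfl fun x _ => ?_
      split_ifs with h1 h2
      · rfl
      · exact absurd (h1 ▸ h) h2
      · rfl
    · symm; refine Finset.sum_eq_zero fun x _ => ?_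
      split_ifs with h1 h2
      · exact absurd (h1 ▸ h2) h
      · rfl
      · rfl
  simp_rw [this]
  rw [Finset.sum_comm]
  refine Finset.sum_congr rfl fun x _ => ?_
  simp

/-- Substitution of variables `w_x ↦ w_{f x}`. -/
noncomputable def sub (f : X → Y) : Lau K X →ₐ[K] Lau K Y := mapDomainAlgHom K K (push f)

@[simp] lemma sub_mon (f : X → Y) (a : X → ℤ) : (sub f (mon a) : Lau K Y) = mon (push f a) := by
  simp [sub, mon]

lemma sub_sub [Fintype Y] (f : X → Y) (g : Y → Z) (x : Lau K X) : sub g (sub f x) = sub (g ∘ f) x := by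
  have : (sub g).toLinearMap ∘ₗ (sub f).toLinearMap = (sub (g ∘ f) : Lau K X →ₐ[K] Lau K Z).toLinearMap :=
    lau_ext fun a => by simp [push_push]
  exact congrArg (fun F => F x) this

end sub

lemma push_id [Fintype X] [DecidableEq X] (a : X → ℤ) : push (id : X → X) a = a := by
  ext y; simp [push_apply]

lemma sub_id [Fintype X] [DecidableEq X] (x : Lau K X) : sub (id : X → X) x = x := by
  have : (sub (id : X → X) : Lau K X →ₐ[K] Lau K X).toLinearMap = LinearMap.id :=
    lau_ext fun a => by simp [push_id]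
  exact congrArg (fun F => F x) this

section var

variable [DecidableEq X] [DecidableEq Y]

/-- Powers of a variable. -/
noncomputable def wz (x : X) (m : ℤ) : Lau K X := mon (Pi.single x m)

lemma wz_zero (x : X) : (wz x 0 : Lau K X) = 1 := by simp [wz, mon_zero]

lemma wz_add (x : X) (m n : ℤ) : (wz x (m + n) : Lau K X) = wz x m * wz x n := by
  rw [wz, wz, wz, mon_mul, Pi.single_add]

lemma wz_natCast (x : X) (n : ℕ) : (wz x n : Lau K X) = wz x 1 ^ n := by
  induction n with
  | zero => simp [wz_zero]
  | succ n ih => rw [pow_succ, ← ih, ← wz_add]; push_cast; rfl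

lemma wz_mul_neg (x : X) (m : ℤ) : (wz x m : Lau K X) * wz x (-m) = 1 := by
  rw [← wz_add]; simp [wz_zero]

lemma wz_isUnit (x : X) (m : ℤ) : IsUnit (wz x m : Lau K X) := mon_isUnit _

lemma push_single [Fintype X] (f : X → Y) (x : X) (m : ℤ) :
    push f (Pi.single x m) = Pi.single (f x) m := by
  ext y
  rw [push_apply, Finset.sum_eq_single x]
  · simp only [Pi.single_eq_same]
    by_cases h : f x = y
    · subst h; simp
    · rw [if_neg h, Pi.single_eq_of_ne (Ne.symm h)]
  · intro x' _ hx'
    rw [Pi.single_eq_of_ne hx']; simp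
  · intro h; exact absurd (Finset.mem_univ _) h

@[simp] lemma sub_wz [Fintype X] (f : X → Y) (x : X) (m : ℤ) :
    (sub f (wz x m) : Lau K Y) = wz (f x) m := by
  simp [wz, push_single]

lemma dg_wz (f : (X → ℤ) → K) (x : X) (m : ℤ) :
    dg f (wz x m) = f (Pi.single x m) • wz x m := by simp [wz]

/-- The variable. -/
noncomputable def w (x : X) : Lau K X := wz x 1

/-- `w_x - w_y` divides `w_x^m - w_y^m` for all integers `m`. -/
lemma sub_dvd_wz (x y : X) (m : ℤ) : (w x - w y : Lau K X) ∣ wz x m - wz y m := by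
  obtain ⟨n, rfl | rfl⟩ := m.eq_nat_or_neg
  · rw [wz_natCast, wz_natCast]; exact sub_dvd_pow_sub_pow _ _ _
  · have h : (wz x (-(n : ℤ)) - wz y (-(n : ℤ)) : Lau K X)
        = -(wz x n - wz y n) * (wz x (-(n : ℤ)) * wz y (-(n : ℤ))) := by
      have h1 := wz_mul_neg (K := K) x n
      have h2 := wz_mul_neg (K := K) y n
      linear_combination (wz y (-(n : ℤ))) * h1 - (wz x (-(n : ℤ))) * h2
    rw [h, wz_natCast, wz_natCast]
    exact Dvd.dvd.mul_right ((sub_dvd_pow_sub_pow _ _ _).neg_right) _

end var

end WittACC
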