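import Pool.Agent.helper37.Witt.Delta
import Pool.Agent.helper37.Witt.Acc

/-!
The chain lemma: `K(n) * I_k ⊆ I_{k₀}` for chains of ideals containing `K(n+1)`.
-/

namespace WittACC

open TensorProduct

instance lau_noetherian {K : Type*} [Field K] {X : Type*} [Finite X] : IsNoetherianRing (Lau K X) := by
  have h1 : AddGroup.FG (X → ℤ) := by
    rw [← Module.Finite.iff_addGroup_fg]; infer_instance
  have h2 : AddMonoid.FG (X → ℤ) := by
    rw [← AddGroup.fg_iff_addMonoid_fg]; exact h1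
  have h3 : Algebra.FiniteType K (Lau K X) := inferInstance
  exact Algebra.FiniteType.isNoetherianRing K _

namespace WittGen

variable {K : Type*} [Field K] {U : Type*} [Ring U] [Algebra K U] (G : WittGen K U)

/-- The recurrence polynomial `∏ (X - w_i)^(2e)`. -/
noncomputable def rpoly (K : Type*) [Field K] (n e : ℕ) : Polynomial (Lau K (Fin n)) :=
  ∏ i : Fin n, (Polynomial.X - Polynomial.C (w i)) ^ (2 * e)

lemma rpoly_monic (n e : ℕ) : (rpoly K n e).Monic :=
  Polynomial.monic_prod_of_monic _ _ fun _ _ => (Polynomial.monic_X_sub_C _).pow _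

lemma rpoly_coeff_zero (n e : ℕ) : IsUnit ((rpoly K n e).coeff 0) := by
  rw [Polynomial.coeff_zero_eq_eval_zero, rpoly, Polynomial.eval_prod]
  apply IsUnit.prod_univ_iff.2
  intro i
  simp only [Polynomial.eval_pow, Polynomial.eval_sub, Polynomial.eval_X, Polynomial.eval_C, zero_sub]
  exact (wz_isUnit i 1).neg.pow _

/-- The operators for the chain lemma. -/
noncomputable def opData (n e : ℕ) : G.OpData (Lau K (Fin n)) where
  D v := (Dd v : Derivation K (Lau K (Fin n)) (Lau K (Fin n))).toLinearMap.rTensor U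
  hD v d m hm := by
    refine G.FM_induction (P := fun m =>
      ((Dd v : Derivation K (Lau K (Fin n)) (Lau K (Fin n))).toLinearMap.rTensor U) m
        ∈ G.FM (Lau K (Fin n)) d) ?_ ?_ ?_ hm
    · simp
    · intro x y hx hy; rw [map_add]; exact add_mem hx hy
    · intro r l hl
      rw [LinearMap.rTensor_tmul]
      exact G.tmul_mem_FM (G.W_mem_F hl) _
  p κ := (rpoly K n e).coeff κ
  N := (rpoly K n e).natDegree
  h0 := rpoly_coeff_zero n e
  hN := by
    have := (rpoly_monic (K := K) n e).coeff_natDegree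
    rw [this]; exact isUnit_one

/-- The contraction `θ(Ψ ⊗ x) = T_n(Δ^e Ψ) x`. -/
noncomputable def th (n e : ℕ) : (Lau K (Fin n)) ⊗[K] U →ₗ[K] U :=
  TensorProduct.lift ((LinearMap.mul K U) ∘ₗ G.T n ∘ₗ LinearMap.mulLeft K (disc K (Fin n) ^ e))

lemma th_tmul (n e : ℕ) (r : Lau K (Fin n)) (x : U) :
    G.th n e (r ⊗ₜ[K] x) = G.T n (disc K (Fin n) ^ e * r) * x := by
  simp [th]

lemma th_mul (n e : ℕ) (m : (Lau K (Fin n)) ⊗[K] U) (x : U) :
    G.th n e (m * ((1 : Lau K (Fin n)) ⊗ₜ[K] x)) = G.th n e m * x := by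
  induction m using TensorProduct.induction_on with
  | zero => simp
  | tmul r y => rw [Algebra.TensorProduct.tmul_mul_tmul, mul_one, th_tmul, th_tmul, mul_assoc]
  | add x y hx hy => rw [add_mul, map_add, map_add, hx, hy, add_mul]

lemma smul_tmul_eq (n : ℕ) (a r : Lau K (Fin n)) (x : U) :
    a • (r ⊗ₜ[K] x) = (a * r) ⊗ₜ[K] x := by
  rw [TensorProduct.smul_tmul', smul_eq_mul]

lemma E_mul_th (n e : ℕ) (v : ℤ) : ∃ ω : Lau K (Fin n), ∀ m : (Lau K (Fin n)) ⊗[K] U,
    G.E v * G.th n e m = G.th n e (((1 : Lau K (Fin n)) ⊗ₜ[K] G.E v) * m)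
      + G.th n e ((G.opData n e).D v m) + G.th n e (ω • m) := by
  obtain ⟨ω, hω⟩ := exists_omega (K := K) n e v
  refine ⟨ω, fun m => ?_⟩
  induction m using TensorProduct.induction_on with
  | zero => simp
  | tmul r x =>
    have h1 := G.ad_T v n (disc K (Fin n) ^ e * r)
    rw [ad_apply, hω r] at h1
    have h2 : G.E v * G.T n (disc K (Fin n) ^ e * r) = G.T n (disc K (Fin n) ^ e * r) * G.E v
        + G.T n (disc K (Fin n) ^ e * (Dd v r + ω * r)) := by rw [← h1]; abel
    rw [Algebra.TensorProduct.tmul_mul_tmul, one_mul, th_tmul, th_tmul, ← mul_assoc, h2,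
      smul_tmul_eq, th_tmul]
    have h3 : (G.opData n e).D v (r ⊗ₜ[K] x) = (Dd v r) ⊗ₜ[K] x := by
      simp [opData]
    rw [h3, th_tmul, mul_add, map_add, add_mul, add_mul, mul_assoc]
    abel
  | add x y hx hy =>
    simp only [mul_add, map_add, smul_add, hx, hy]
    abel

lemma D_smul (n e : ℕ) (v : ℤ) (a : Lau K (Fin n)) (m : (Lau K (Fin n)) ⊗[K] U) :
    (G.opData n e).D v (a • m) = a • (G.opData n e).D v m + (Dd v a) • m := by
  induction m using TensorProduct.induction_on with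
  | zero => simp
  | tmul r x =>
    have h3 : ∀ r : Lau K (Fin n), (G.opData n e).D v (r ⊗ₜ[K] x) = (Dd v r) ⊗ₜ[K] x := by
      intro r; simp [opData]
    rw [smul_tmul_eq, h3, h3, smul_tmul_eq, smul_tmul_eq, ← TensorProduct.add_tmul,
      Derivation.leibniz]
    simp only [smul_eq_mul]
    rw [mul_comm r]
  | add x y hx hy =>
    simp only [map_add, smul_add, hx, hy]
    abel

/-- The submodule attached to an ideal. -/
noncomputable def Zs (n e : ℕ) (I : TwoSidedIdeal U) :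
    Submodule (Lau K (Fin n)) ((Lau K (Fin n)) ⊗[K] U) where
  carrier := {m | ∀ a : Lau K (Fin n), G.th n e (a • m) ∈ I}
  add_mem' hx hy a := by rw [smul_add, map_add]; exact I.add_mem (hx a) (hy a)
  zero_mem' a := by rw [smul_zero, map_zero]; exact I.zero_mem
  smul_mem' c m hm a := by rw [smul_smul]; exact hm _

lemma mem_Zs {n e : ℕ} {I : TwoSidedIdeal U} {m : (Lau K (Fin n)) ⊗[K] U} :
    m ∈ G.Zs n e I ↔ ∀ a : Lau K (Fin n), G.th n e (a • m) ∈ I := Iff.rfl

lemma rel_identity (n e : ℕ) (a : Lau K (Fin n)) (t : ℤ) : ∃ c : Lau K (Fin (n + 1)),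
    G.th n e (a • ∑ κ ∈ Finset.range ((rpoly K n e).natDegree + 1),
      (rpoly K n e).coeff κ ⊗ₜ[K] G.E (t + κ)) = G.T (n + 1) (disc K (Fin (n + 1)) ^ e * c) := by
  have h1 : G.th n e (a • ∑ κ ∈ Finset.range ((rpoly K n e).natDegree + 1),
      (rpoly K n e).coeff κ ⊗ₜ[K] G.E (t + κ)) = G.T (n + 1) (sub Fin.castSucc
        (disc K (Fin n) ^ e * a) * wz (Fin.last n) t *
        ∑ κ ∈ Finset.range ((rpoly K n e).natDegree + 1),
          sub Fin.castSucc ((rpoly K n e).coeff κ) * (w (Fin.last n)) ^ κ) := by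
    rw [Finset.smul_sum, map_sum, Finset.mul_sum, map_sum]
    refine Finset.sum_congr rfl fun κ _ => ?_
    rw [smul_tmul_eq, th_tmul, ← T_succ, wz_add, wz_natCast]
    congr 1
    rw [map_mul (sub Fin.castSucc), map_mul (sub Fin.castSucc), map_mul (sub Fin.castSucc), w]
    ring
  have h2 : ∑ κ ∈ Finset.range ((rpoly K n e).natDegree + 1),
      sub Fin.castSucc ((rpoly K n e).coeff κ) * (w (Fin.last n)) ^ κ
      = ∏ i : Fin n, (w (Fin.last n) - w i.castSucc : Lau K (Fin (n + 1))) ^ (2 * e) := by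
    have h3 := Polynomial.eval₂_eq_sum_range
      (f := ((sub Fin.castSucc : Lau K (Fin n) →ₐ[K] Lau K (Fin (n + 1))) :
        Lau K (Fin n) →+* Lau K (Fin (n + 1)))) (p := rpoly K n e) (w (Fin.last n))
    have h4 : (rpoly K n e).eval₂ ((sub Fin.castSucc : Lau K (Fin n) →ₐ[K] Lau K (Fin (n + 1))) :
        Lau K (Fin n) →+* Lau K (Fin (n + 1))) (w (Fin.last n))
        = ∏ i : Fin n, (w (Fin.last n) - w i.castSucc : Lau K (Fin (n + 1))) ^ (2 * e) := by
      rw [rpoly, Polynomial.eval₂_finsetProd]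
      refine Finset.prod_congr rfl fun i _ => ?_
      rw [Polynomial.eval₂_pow, Polynomial.eval₂_sub, Polynomial.eval₂_X, Polynomial.eval₂_C]
      simp [sub_w]
    rw [← h4, h3]
    rfl
  have h5 : ∏ i : Fin n, (w i.castSucc - w (Fin.last n) : Lau K (Fin (n + 1)))
      = (-1) ^ n * ∏ i : Fin n, (w (Fin.last n) - w i.castSucc) := by
    have : ∀ i : Fin n, (w i.castSucc - w (Fin.last n) : Lau K (Fin (n + 1)))
        = (-1) * (w (Fin.last n) - w i.castSucc) := fun i => by ring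
    simp only [this]
    rw [Finset.prod_mul_distrib]
    simp
  refine ⟨(-1) ^ (n * e) * sub Fin.castSucc a * wz (Fin.last n) t, ?_⟩
  rw [h1, h2, disc_succ, h5]
  congr 1
  rw [Finset.prod_pow, map_mul, map_pow]
  have h6 : ((-1 : Lau K (Fin (n + 1))) ^ n) ^ e * (-1) ^ (n * e) = 1 := by
    rw [← pow_mul, ← mul_pow]; simp
  set A := sub Fin.castSucc (disc K (Fin n)) with hA
  set B := ∏ i : Fin n, (w (Fin.last n) - w i.castSucc : Lau K (Fin (n + 1))) with hB
  have h7 : (A * ((-1) ^ n * B) * B) ^ e * ((-1) ^ (n * e) * sub Fin.castSucc a * wz (Fin.last n) t)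
      = (((-1 : Lau K (Fin (n + 1))) ^ n) ^ e * (-1) ^ (n * e)) *
        (A ^ e * sub Fin.castSucc a * wz (Fin.last n) t * B ^ (2 * e)) := by
    rw [mul_pow, mul_pow, mul_pow]; ring
  rw [h7, h6, one_mul]

lemma stable_Zs (n e : ℕ) (I : TwoSidedIdeal U)
    (hI : ∀ x : Lau K (Fin (n + 1)), G.T (n + 1) (disc K (Fin (n + 1)) ^ e * x) ∈ I) :
    Stable (G.opData n e) (G.Zs n e I) where
  rmul m hm x a := by
    rw [← smul_mul_assoc, th_mul]
    exact I.mul_mem_right _ _ (hm a)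
  lact m hm v a := by
    obtain ⟨ω, hω⟩ := G.E_mul_th n e v
    have h1 := hω (a • m)
    rw [D_smul, mul_smul_comm, map_add] at h1
    have h2 : G.th n e (a • (((1 : Lau K (Fin n)) ⊗ₜ[K] G.E v) * m + (G.opData n e).D v m))
        = G.E v * G.th n e (a • m) - G.th n e ((Dd v a) • m) - G.th n e (ω • a • m) := by
      rw [h1, smul_add, map_add]; abel
    rw [h2]
    refine I.sub_mem (I.sub_mem (I.mul_mem_left _ _ (hm a)) (hm _)) ?_
    rw [smul_smul]; exact hm _
  rel t a := by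
    obtain ⟨c, hc⟩ := G.rel_identity n e a t
    have h1 : G.th n e (a • ∑ κ ∈ Finset.range ((G.opData n e).N + 1),
      (G.opData n e).p κ ⊗ₜ[K] G.E (t + κ)) = G.T (n + 1) (disc K (Fin (n + 1)) ^ e * c) := hc
    rw [h1]; exact hI c

/-- The chain lemma. -/
theorem chain_lemma (n e : ℕ) (I : ℕ → TwoSidedIdeal U) (hmono : Monotone I)
    (hI : ∀ x : Lau K (Fin (n + 1)), G.T (n + 1) (disc K (Fin (n + 1)) ^ e * x) ∈ I 0) :
    ∃ k₀, ∀ k, ∀ x : Lau K (Fin n), ∀ y ∈ I k, G.T n (disc K (Fin n) ^ e * x) * y ∈ I k₀ := by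
  have hst : ∀ k, Stable (G.opData n e) (G.Zs n e (I k)) := fun k =>
    G.stable_Zs n e (I k) fun x => hmono (Nat.zero_le k) (hI x)
  obtain ⟨k₀, hk₀⟩ := stable_acc (G.opData n e) (fun k => G.Zs n e (I k))
    (fun a b hab m hm c => hmono hab (hm c)) hst
  refine ⟨k₀, fun k x y hy => ?_⟩
  have h1 : (1 : Lau K (Fin n)) ⊗ₜ[K] y ∈ G.Zs n e (I (max k k₀)) := by
    intro a
    rw [smul_tmul_eq, mul_one, th_tmul]
    exact (I _).mul_mem_left _ _ (hmono (le_max_left _ _) hy)
  have h2 := hk₀ (max k k₀) (le_max_right _ _)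
  change G.Zs n e (I (max k k₀)) = G.Zs n e (I k₀) at h2
  rw [h2] at h1
  have h3 := h1 x
  rwa [smul_tmul_eq, mul_one, th_tmul] at h3

end WittGen

end WittACC
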