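import Pool.Agent.helper37.Witt.Cofinal2
import Pool.Agent.helper37.Witt.Step

/-!
Ascending chain conditions for semiprime and prime two-sided ideals.
-/

namespace WittACC

/-- Semiprime two-sided ideals: `I² ⊆ S` implies `I ⊆ S`. -/
def Semiprime {U : Type*} [Ring U] (S : TwoSidedIdeal U) : Prop :=
  ∀ I : TwoSidedIdeal U, (∀ x ∈ I, ∀ y ∈ I, x * y ∈ S) → I ≤ S

/-- Prime two-sided ideals: proper, and `I J ⊆ P` implies `I ⊆ P` or `J ⊆ P`. -/
def Prime' {U : Type*} [Ring U] (P : TwoSidedIdeal U) : Prop :=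
  P ≠ ⊤ ∧ ∀ I J : TwoSidedIdeal U, (∀ x ∈ I, ∀ y ∈ J, x * y ∈ P) → I ≤ P ∨ J ≤ P

lemma Prime'.semiprime {U : Type*} [Ring U] {P : TwoSidedIdeal U} (h : Prime' P) : Semiprime P :=
  fun I hI => (h.2 I I hI).elim id id

section ring

variable {U : Type*} [Ring U]

/-- The ideal `{x | x A ⊆ B}`. -/
def lq (A B : TwoSidedIdeal U) : TwoSidedIdeal U :=
  TwoSidedIdeal.mk' {x | ∀ y ∈ A, x * y ∈ B}
    (fun y _ => by rw [zero_mul]; exact B.zero_mem)
    (fun {a b} ha hb y hy => by rw [add_mul]; exact B.add_mem (ha y hy) (hb y hy))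
    (fun {a} ha y hy => by rw [neg_mul]; exact B.neg_mem (ha y hy))
    (fun {a b} hb y hy => by rw [mul_assoc]; exact B.mul_mem_left _ _ (hb y hy))
    (fun {a b} ha y hy => by rw [mul_assoc]; exact ha _ (A.mul_mem_left _ _ hy))

lemma mem_lq {A B : TwoSidedIdeal U} {x : U} : x ∈ lq A B ↔ ∀ y ∈ A, x * y ∈ B := by
  simp [lq, TwoSidedIdeal.mem_mk']

/-- The ideal `{y | z U y ⊆ B}`. -/
def rq (z : U) (B : TwoSidedIdeal U) : TwoSidedIdeal U :=
  TwoSidedIdeal.mk' {y | ∀ r, z * r * y ∈ B}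
    (fun r => by rw [mul_zero]; exact B.zero_mem)
    (fun {a b} ha hb r => by rw [mul_add]; exact B.add_mem (ha r) (hb r))
    (fun {a} ha r => by rw [mul_neg]; exact B.neg_mem (ha r))
    (fun {a b} hb r => by
      have := hb (r * a)
      rwa [show z * r * (a * b) = z * (r * a) * b by noncomm_ring])
    (fun {a b} ha r => by rw [← mul_assoc]; exact B.mul_mem_right _ _ (ha r))

lemma mem_rq {z : U} {B : TwoSidedIdeal U} {y : U} : y ∈ rq z B ↔ ∀ r, z * r * y ∈ B := by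
  simp [rq, TwoSidedIdeal.mem_mk']

lemma Semiprime.elt {S : TwoSidedIdeal U} (hS : Semiprime S) {z : U} (hz : ∀ r, z * r * z ∈ S) :
    z ∈ S := by
  have h1 : TwoSidedIdeal.span {z} ≤ rq z S := by
    rw [TwoSidedIdeal.span_le]
    rintro _ rfl
    exact mem_rq.2 hz
  have h2 : TwoSidedIdeal.span {z} ≤ lq (TwoSidedIdeal.span {z}) S := by
    rw [TwoSidedIdeal.span_le]
    rintro _ rfl
    refine mem_lq.2 fun y hy => ?_
    have := mem_rq.1 (h1 hy) 1
    rwa [mul_one] at this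
  have h3 := hS (TwoSidedIdeal.span {z}) fun x hx y hy => mem_lq.1 (h2 hx) y hy
  exact h3 (TwoSidedIdeal.subset_span rfl)

lemma Semiprime.lq {A S : TwoSidedIdeal U} (hS : Semiprime S) : Semiprime (lq A S) := by
  intro J hJ a ha
  refine mem_lq.2 fun y hy => hS.elt fun r => ?_
  have h1 := mem_lq.1 (hJ a ha (y * r * a) (J.mul_mem_left _ _ ha)) y hy
  rwa [show a * y * r * (a * y) = a * (y * r * a) * y by noncomm_ring]

lemma semiprime_sInf {C : Set (TwoSidedIdeal U)} (hC : ∀ S ∈ C, Semiprime S) :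
    Semiprime (sInf C) := by
  intro I hI
  refine le_sInf fun S hS => hC S hS I fun x hx y hy => ?_
  exact ((TwoSidedIdeal.mem_sInf U).1 (hI x hx y hy)) S hS

end ring

namespace WittGen

variable {K : Type*} [Field K] {U : Type*} [Ring U] [Algebra K U] (G : WittGen K U)

lemma semiprime_acc_aux (e : ℕ) : ∀ (n : ℕ) (I : ℕ → TwoSidedIdeal U), Monotone I →
    (∀ k, Semiprime (I k)) → (∀ x : Lau K (Fin n), G.T n (disc K (Fin n) ^ e * x) ∈ I 0) →
    ∃ k₀, ∀ k, k₀ ≤ k → I k = I k₀ := by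
  intro n
  induction n with
  | zero =>
    intro I hmono _ hI
    have h1 : (1 : U) ∈ I 0 := by
      have h2 := hI 1
      have h3 : (disc K (Fin 0) ^ e * 1 : Lau K (Fin 0)) = mon 0 := by
        rw [mon_zero]; simp [disc]
      rw [h3, T_mon] at h2
      simpa using h2
    have h2 : ∀ k, I k = ⊤ := fun k => (TwoSidedIdeal.one_mem_iff _).1 (hmono (Nat.zero_le k) h1)
    exact ⟨0, fun k _ => by rw [h2, h2]⟩
  | succ n ih =>
    intro I hmono hS hI
    obtain ⟨k₀, hk₀⟩ := G.chain_lemma n e I hmono hI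
    set C : ℕ → Set (TwoSidedIdeal U) := fun k =>
      {S | Semiprime S ∧ I k ≤ S ∧ ∀ x : Lau K (Fin n), G.T n (disc K (Fin n) ^ e * x) ∈ S} with hC
    obtain ⟨k₁, hk₁⟩ := ih (fun k => sInf (C k))
      (fun a b hab => sInf_le_sInf fun S hS => ⟨hS.1, (hmono hab).trans hS.2.1, hS.2.2⟩)
      (fun k => semiprime_sInf fun S hS => hS.1)
      (fun x => (TwoSidedIdeal.mem_sInf U).2 fun S hS => hS.2.2 x)
    refine ⟨max k₀ k₁, fun k hk => le_antisymm ?_ (hmono hk)⟩
    have h1 : lq (I k) (I (max k₀ k₁)) ∈ C (max k₀ k₁) := by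
      refine ⟨(hS _).lq, fun x hx => mem_lq.2 fun y _ => (I _).mul_mem_right _ _ hx, fun x => ?_⟩
      exact mem_lq.2 fun y hy => hmono (le_max_left _ _) (hk₀ k x y hy)
    have h2 : I k ≤ lq (I k) (I (max k₀ k₁)) := by
      have e1 : I k ≤ sInf (C k) := le_sInf fun S hS => hS.2.1
      have e2 : sInf (C k) = sInf (C k₁) := hk₁ k ((le_max_right _ _).trans hk)
      have e3 : sInf (C (max k₀ k₁)) = sInf (C k₁) := hk₁ _ (le_max_right _ _)
      rw [e2, ← e3] at e1
      exact e1.trans (sInf_le h1)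
    exact hS _ (I k) fun x hx y hy => mem_lq.1 (h2 hx) y hy

include G in
/-- ACC for semiprime ideals. -/
theorem semiprime_acc [CharZero K] (I : ℕ → TwoSidedIdeal U) (hmono : Monotone I)
    (hS : ∀ k, Semiprime (I k)) : ∃ k₀, ∀ k, k₀ ≤ k → I k = I k₀ := by
  by_cases h : ∀ k, I k = ⊥
  · exact ⟨0, fun k _ => by rw [h, h]⟩
  · push Not at h
    obtain ⟨k₂, hk₂⟩ := h
    obtain ⟨n, e, hne⟩ := G.cofinal (I k₂) hk₂
    obtain ⟨k₀, hk₀⟩ := G.semiprime_acc_aux e n (fun k => I (k₂ + k))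
      (fun a b hab => hmono (by omega)) (fun k => hS _) hne
    refine ⟨k₂ + k₀, fun k hk => ?_⟩
    have := hk₀ (k - k₂) (by omega)
    simpa [show k₂ + (k - k₂) = k by omega] using this

include G in
/-- ACC for prime ideals. -/
theorem prime_acc [CharZero K] (I : ℕ → TwoSidedIdeal U) (hmono : Monotone I)
    (hS : ∀ k, Prime' (I k)) : ∃ k₀, ∀ k, k₀ ≤ k → I k = I k₀ :=
  G.semiprime_acc I hmono fun k => (hS k).semiprime

end WittGen

end WittACC
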