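import Pool.Agent.helper37.Witt.Sym

/-!
Iterated adjoint actions and their action on the images of `T n`.
-/

namespace WittACC

section diag

variable {K : Type*} [CommRing K] {X : Type*}

lemma dg_pow_dvd (Λ : (X → ℤ) →+ K) (g y : Lau K X) (t : ℕ) :
    g ^ t ∣ dg Λ (g ^ (t + 1) * y) := by
  rw [dg_leib]
  have h1 : dg Λ (g ^ (t + 1)) = (t + 1 : ℕ) • (g ^ t * dg Λ g) := by
    rw [← der_apply, Derivation.leibniz_pow]; simp
  rw [h1]
  refine dvd_add ?_ ?_
  · refine Dvd.dvd.mul_right ?_ _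
    rw [nsmul_eq_mul]
    exact Dvd.dvd.mul_left (dvd_mul_right _ _) _
  · exact Dvd.dvd.mul_right (pow_dvd_pow _ (Nat.le_succ t)) _

/-- A product of additive eigenvalues lowers the order of divisibility by at most the number of
factors. -/
lemma dg_prod_dvd {ι : Type*} (S : Finset ι) (Λ : ι → (X → ℤ) →+ K) (g : Lau K X) :
    ∀ (t : ℕ) (y : Lau K X), g ^ (t + S.card) ∣ y → g ^ t ∣ dg (fun c => ∏ i ∈ S, Λ i c) y := by
  classical
  induction S using Finset.induction_on with
  | empty =>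
    intro t y hy
    have : (fun c : X → ℤ => ∏ i ∈ (∅ : Finset ι), Λ i c) = 1 := by ext; simp
    rw [this, dg_one]; simpa using hy
  | insert i S hi ih =>
    intro t y hy
    have h1 : (fun c : X → ℤ => ∏ i ∈ insert i S, Λ i c)
        = (Λ i : (X → ℤ) → K) * (fun c => ∏ i ∈ S, Λ i c) := by
      ext c; rw [Finset.prod_insert hi]; rfl
    rw [h1, dg_mul_apply]
    rw [Finset.card_insert_of_notMem hi] at hy
    obtain ⟨z, hz⟩ := ih (t + 1) y (by convert hy using 2; ring)
    rw [hz]; exact dg_pow_dvd _ _ _ _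

/-- Second order evaluation. -/
lemma dg_sq (Λ Λ' : (X → ℤ) →+ K) (g y : Lau K X) :
    g ∣ dg Λ (dg Λ' (g ^ 2 * y)) - 2 * dg Λ g * dg Λ' g * y := by
  have h1 : dg Λ' (g ^ 2 * y) = 2 * g * (dg Λ' g * y) + g ^ 2 * dg Λ' y := by
    rw [dg_leib, pow_two, dg_leib]; ring
  rw [h1, map_add]
  have h2 : dg Λ (2 * g * (dg Λ' g * y)) = 2 * dg Λ g * (dg Λ' g * y) + 2 * g * dg Λ (dg Λ' g * y) := by
    have : (2 * g * (dg Λ' g * y) : Lau K X) = (2 : K) • (g * (dg Λ' g * y)) := by
      rw [two_smul]; ring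
    rw [this, map_smul, dg_leib, two_smul]; ring
  have h3 : dg Λ (g ^ 2 * dg Λ' y) = 2 * g * dg Λ g * dg Λ' y + g ^ 2 * dg Λ (dg Λ' y) := by
    rw [dg_leib, pow_two, dg_leib]; ring
  rw [h2, h3]
  exact ⟨2 * dg Λ (dg Λ' g * y) + 2 * dg Λ g * dg Λ' y + g * dg Λ (dg Λ' y), by ring⟩

/-- Exact evaluation of products of second order operators on products of squares. -/
lemma dg_prod_sq {ι : Type*} [DecidableEq ι] (Λ Λ' : ι → (X → ℤ) →+ K) (g : ι → Lau K X)
    (h1 : ∀ i j, i ≠ j → dg (Λ i) (g j) = 0) (h2 : ∀ i j, i ≠ j → dg (Λ' i) (g j) = 0)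
    (S : Finset ι) : ∀ y : Lau K X,
      dg (fun c => ∏ i ∈ S, (Λ i c * Λ' i c)) ((∏ i ∈ S, g i ^ 2) * y)
        - (∏ i ∈ S, (2 * dg (Λ i) (g i) * dg (Λ' i) (g i))) * y ∈ Ideal.span (g '' S) := by
  induction S using Finset.induction_on with
  | empty =>
    intro y
    have : (fun c : X → ℤ => ∏ i ∈ (∅ : Finset ι), (Λ i c * Λ' i c)) = 1 := by ext; simp
    rw [this, dg_one]; simp
  | insert i S hi ih =>
    intro y
    have e1 : (fun c : X → ℤ => ∏ i ∈ insert i S, (Λ i c * Λ' i c))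
        = (Λ i : (X → ℤ) → K) * ((Λ' i : (X → ℤ) → K) * (fun c => ∏ i ∈ S, (Λ i c * Λ' i c))) := by
      ext c; rw [Finset.prod_insert hi]; simp [mul_assoc]
    rw [e1, dg_mul_apply, dg_mul_apply, Finset.prod_insert hi, Finset.prod_insert hi]
    have e2 : (g i ^ 2 * ∏ j ∈ S, g j ^ 2) * y = (∏ j ∈ S, g j ^ 2) * (g i ^ 2 * y) := by ring
    rw [e2]
    have key := ih (g i ^ 2 * y)
    set P := ∏ j ∈ S, (2 * dg (Λ j) (g j) * dg (Λ' j) (g j)) with hP
    set Q := dg (fun c => ∏ i ∈ S, (Λ i c * Λ' i c)) ((∏ j ∈ S, g j ^ 2) * (g i ^ 2 * y)) with hQ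
    have hpres : ∀ (M : (X → ℤ) →+ K), (∀ j ∈ S, dg M (g j) = 0) →
        ∀ z ∈ Ideal.span (g '' S), dg M z ∈ Ideal.span (g '' S) := by
      intro M hM z hz
      refine Submodule.span_induction (p := fun z _ => dg M z ∈ Ideal.span (g '' S)) ?_ ?_ ?_ ?_ hz
      · rintro _ ⟨j, hj, rfl⟩
        rw [hM j hj]; exact zero_mem _
      · simp
      · intro x y _ _ hx hy; rw [map_add]; exact add_mem hx hy
      · intro a x hx0 hx
        rw [smul_eq_mul, dg_leib]
        exact add_mem (Ideal.mul_mem_left _ _ hx0) (Ideal.mul_mem_left _ _ hx)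
    have hne : ∀ j ∈ S, i ≠ j := by rintro j hj rfl; exact hi hj
    have k1 := hpres (Λ i) (fun j hj => h1 i j (hne j hj)) _
      (hpres (Λ' i) (fun j hj => h2 i j (hne j hj)) _ key)
    rw [map_sub, map_sub] at k1
    have hsub : Ideal.span (g '' (S : Set ι)) ≤ Ideal.span (g '' ((insert i S : Finset ι) : Set ι)) :=
      Ideal.span_mono (Set.image_mono (by simp))
    have k2 := hsub k1
    have k3 : dg (Λ i) (dg (Λ' i) (P * (g i ^ 2 * y))) - 2 * dg (Λ i) (g i) * dg (Λ' i) (g i) * P * y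
        ∈ Ideal.span (g '' ((insert i S : Finset ι) : Set ι)) := by
      have : P * (g i ^ 2 * y) = g i ^ 2 * (P * y) := by ring
      rw [this]
      obtain ⟨z, hz⟩ := dg_sq (Λ i) (Λ' i) (g i) (P * y)
      have h5 : 2 * dg (Λ i) (g i) * dg (Λ' i) (g i) * P * y
        = 2 * dg (Λ i) (g i) * dg (Λ' i) (g i) * (P * y) := by ring
      rw [h5, hz]
      exact Ideal.mul_mem_right _ _ (Ideal.subset_span ⟨i, by simp, rfl⟩)
    have k4 := add_mem k2 k3
    convert k4 using 1
    ring

end diag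

namespace WittGen

variable {K : Type*} [Field K] {U : Type*} [Ring U] [Algebra K U] (G : WittGen K U)

/-- Iterated adjoint action. -/
def adN : (s : ℕ) → (Fin s → ℤ) → (U →ₗ[K] U)
  | 0, _ => LinearMap.id
  | s + 1, m => G.ad (m 0) ∘ₗ adN s (Fin.tail m)

variable (K) in
/-- The eigenvalues. -/
noncomputable def lam {s r : ℕ} (σ : Fin s → Fin r) (a : Fin s) : (Fin s ⊕ Fin r → ℤ) →+ K :=
  ev (Sum.inl a) - ev (Sum.inr (σ a)) - ∑ b : Fin s, if a < b ∧ σ b = σ a then ev (Sum.inl b) else 0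

lemma lam_apply {s r : ℕ} (σ : Fin s → Fin r) (a : Fin s) (m : Fin s → ℤ) (n : Fin r → ℤ) :
    lam K σ a (Sum.elim m n) = (m a : K) - n (σ a) - ∑ b : Fin s, if a < b ∧ σ b = σ a then (m b : K) else 0 := by
  rw [lam, AddMonoidHom.sub_apply, AddMonoidHom.sub_apply, AddMonoidHom.finsetSum_apply]
  simp only [ev_apply, Sum.elim_inl, Sum.elim_inr]
  congr 1
  refine Finset.sum_congr rfl fun b _ => ?_
  split_ifs <;> simp

lemma adN_T_mon {r : ℕ} (n : Fin r → ℤ) : ∀ (s : ℕ) (m : Fin s → ℤ),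
    G.adN s m (G.T r (mon n)) = ∑ σ : Fin s → Fin r,
      (∏ a : Fin s, lam K σ a (Sum.elim m n)) • G.T r (mon (n + push σ m)) := by
  intro s
  induction s with
  | zero =>
    intro m
    rw [Fintype.sum_unique]
    simp only [adN, Finset.univ_eq_empty, Finset.prod_empty, one_smul, LinearMap.id_apply]
    have : push (default : Fin 0 → Fin r) m = 0 := by
      ext y; rw [push_apply]; simp
    rw [this, add_zero]
  | succ s ih =>
    intro m
    rw [← (Fin.consEquiv (fun _ : Fin (s + 1) => Fin r)).sum_comp, Fintype.sum_prod_type,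
      Finset.sum_comm]
    simp only [adN, LinearMap.comp_apply, ih, map_sum, map_smul]
    refine Finset.sum_congr rfl fun σ _ => ?_
    rw [ad_T_mon, Finset.smul_sum]
    refine Finset.sum_congr rfl fun i _ => ?_
    rw [smul_smul]
    have hpush : push (Fin.consEquiv (fun _ : Fin (s + 1) => Fin r) (i, σ)) m
        = push σ (Fin.tail m) + Pi.single i (m 0) := by
      ext y
      rw [push_apply, Fin.sum_univ_succ, Pi.add_apply, push_apply]
      simp only [Fin.consEquiv_apply, Fin.cons_zero, Fin.cons_succ]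
      rw [add_comm]
      congr 1
      by_cases h : i = y
      · subst h; simp
      · rw [if_neg h, Pi.single_eq_of_ne (Ne.symm h)]
    have hcoef : ∏ a : Fin (s + 1), lam K (Fin.consEquiv (fun _ : Fin (s + 1) => Fin r) (i, σ)) a
        (Sum.elim m n) = (∏ a : Fin s, lam K σ a (Sum.elim (Fin.tail m) n)) *
          ((m 0 : K) - (n + push σ (Fin.tail m)) i) := by
      rw [Fin.prod_univ_succ, mul_comm]
      congr 1
      · refine Finset.prod_congr rfl fun a _ => ?_
        rw [lam_apply, lam_apply, Fin.sum_univ_succ]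
        simp only [Fin.consEquiv_apply, Fin.cons_succ, Fin.not_lt_zero, false_and, if_false,
          zero_add, Fin.succ_lt_succ_iff]
        rfl
      · rw [lam_apply, Fin.sum_univ_succ]
        simp only [Fin.consEquiv_apply, Fin.cons_zero, Fin.cons_succ, lt_self_iff_false, false_and,
          if_false, zero_add, Fin.succ_pos, true_and]
        rw [Pi.add_apply, push_apply]
        push_cast
        rw [_root_.sub_sub]
        congr 2
    rw [hpush, hcoef, add_assoc]

/-- Iterated adjoint action with Laurent polynomial coefficients. -/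
noncomputable def adOp (s : ℕ) : Lau K (Fin s) →ₗ[K] (U →ₗ[K] U) := lin (fun m => G.adN s m)

lemma push_elim {s r : ℕ} (σ : Fin s → Fin r) (m : Fin s → ℤ) (n : Fin r → ℤ) :
    push (Sum.elim σ id) (Sum.elim m n) = n + push σ m := by
  ext y
  rw [push_apply, Fintype.sum_sum_type, Pi.add_apply, push_apply, add_comm]
  simp

lemma mul_inl_inr {s r : ℕ} (m : Fin s → ℤ) (n : Fin r → ℤ) :
    (sub Sum.inl (mon m) * sub Sum.inr (mon n) : Lau K (Fin s ⊕ Fin r)) = mon (Sum.elim m n) := by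
  rw [sub_mon, sub_mon, mon_mul]
  congr 1
  ext y
  rcases y with y | y
  · simp [push_apply]
  · simp [push_apply]

/-- The contribution of `σ`. -/
noncomputable def contr {s r : ℕ} (σ : Fin s → Fin r) (x : Lau K (Fin s ⊕ Fin r)) : Lau K (Fin r) :=
  sub (Sum.elim σ id) (dg (fun c => ∏ a : Fin s, lam K σ a c) x)

lemma adOp_T {s r : ℕ} (x : Lau K (Fin s)) (y : Lau K (Fin r)) :
    G.adOp s x (G.T r y) = G.T r (∑ σ : Fin s → Fin r, contr σ (sub Sum.inl x * sub Sum.inr y)) := by
  induction x using lau_induction with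
  | h0 => simp [contr]
  | hs c x hx =>
    simp only [map_smul, LinearMap.smul_apply, hx, smul_mul_assoc, contr, Finset.smul_sum, map_sum]
  | ha x x' hx hx' =>
    rw [map_add, LinearMap.add_apply, hx, hx', ← map_add, ← Finset.sum_add_distrib]
    simp [contr, add_mul]
  | hm m =>
    induction y using lau_induction with
    | h0 => simp [contr]
    | hs c x hx =>
      simp only [map_smul, hx, mul_smul_comm, contr, Finset.smul_sum, map_sum]
    | ha x x' hx hx' =>
      rw [map_add, map_add, hx, hx', ← map_add, ← Finset.sum_add_distrib]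
      simp [contr, mul_add]
    | hm n =>
      rw [adOp, lin_mon, adN_T_mon, map_sum]
      refine Finset.sum_congr rfl fun σ _ => ?_
      rw [mul_inl_inr, contr, dg_mon, map_smul, sub_mon, push_elim, map_smul]

lemma adN_mem (I : TwoSidedIdeal U) : ∀ (s : ℕ) (m : Fin s → ℤ) {u : U}, u ∈ I →
    G.adN s m u ∈ I := by
  intro s
  induction s with
  | zero => intro m u hu; exact hu
  | succ s ih =>
    intro m u hu
    rw [adN, LinearMap.comp_apply, ad_apply]
    exact I.sub_mem (I.mul_mem_left _ _ (ih _ hu)) (I.mul_mem_right _ _ (ih _ hu))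

lemma smul_mem_tsi (I : TwoSidedIdeal U) (c : K) {u : U} (hu : u ∈ I) : c • u ∈ I := by
  rw [Algebra.smul_def]; exact I.mul_mem_left _ _ hu

lemma adOp_mem (I : TwoSidedIdeal U) {s : ℕ} (x : Lau K (Fin s)) {u : U} (hu : u ∈ I) :
    G.adOp s x u ∈ I := by
  induction x using lau_induction with
  | h0 => simp [I.zero_mem]
  | hs c x hx => rw [map_smul, LinearMap.smul_apply]; exact smul_mem_tsi I c hx
  | ha x x' hx hx' => rw [map_add, LinearMap.add_apply]; exact I.add_mem hx hx'
  | hm m => rw [adOp, lin_mon]; exact G.adN_mem I s m hu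

/-- Vanishing of the contribution of `σ`. -/
lemma contr_eq_zero {s r : ℕ} (σ : Fin s → Fin r) {a b : Fin s} (hab : σ a = σ b)
    {x : Lau K (Fin s)} (hx : (w a - w b : Lau K (Fin s)) ^ (s + 1) ∣ x) (y : Lau K (Fin r)) :
    contr σ (sub Sum.inl x * sub Sum.inr y) = 0 := by
  obtain ⟨z, rfl⟩ := hx
  have h1 : (w (Sum.inl a) - w (Sum.inl b) : Lau K (Fin s ⊕ Fin r)) ^ (1 + (Finset.univ : Finset (Fin s)).card) ∣
      sub Sum.inl ((w a - w b) ^ (s + 1) * z) * sub Sum.inr y := by
    rw [map_mul, map_pow, map_sub, sub_w, sub_w, Finset.card_univ, Fintype.card_fin, add_comm]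
    exact Dvd.dvd.mul_right (dvd_mul_right _ _) _
  obtain ⟨c, hc⟩ := dg_prod_dvd Finset.univ (lam K σ) _ 1 _ h1
  rw [contr, hc, map_mul, pow_one, map_sub, sub_w, sub_w]
  simp [hab]

end WittGen

end WittACC
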