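import Pool.Agent.helper37.Witt.Delta

/-!
Symmetry of `T n`: exact on multiples of the discriminant, and up to lower order in general.
-/

namespace WittACC

lemma push_perm {n : ℕ} (π : Equiv.Perm (Fin n)) (a : Fin n → ℤ) : push π a = a ∘ π.symm := by
  ext y
  rw [push_apply, Finset.sum_eq_single (π.symm y)]
  · simp
  · intro x _ hx
    rw [if_neg]; rintro rfl; simp at hx
  · intro h; exact absurd (Finset.mem_univ _) h

namespace WittGen

variable {K : Type*} [Field K] {U : Type*} [Ring U] [Algebra K U] (G : WittGen K U)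

lemma exists_split (k : ℕ) (i : Fin k) : ∃ l₁ l₂ : List (Fin (k + 1)),
    List.finRange (k + 1) = l₁ ++ i.castSucc :: i.succ :: l₂ ∧
    i.castSucc ∉ l₁ ∧ i.succ ∉ l₁ ∧ i.castSucc ∉ l₂ ∧ i.succ ∉ l₂ := by
  have h1 : i.val < (List.finRange (k + 1)).length := by simp
  have h2 : i.val + 1 < (List.finRange (k + 1)).length := by simp
  have h3 : List.finRange (k + 1) = (List.finRange (k + 1)).take i.val ++
      i.castSucc :: i.succ :: (List.finRange (k + 1)).drop (i.val + 2) := by
    conv_lhs => rw [← List.take_append_drop i.val (List.finRange (k + 1))]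
    rw [List.drop_eq_getElem_cons h1, List.drop_eq_getElem_cons h2]
    congr 2
    · simp [Fin.ext_iff]
    · congr 1
      simp [Fin.ext_iff]
  refine ⟨_, _, h3, ?_⟩
  have h4 := List.nodup_finRange (k + 1)
  rw [h3, List.nodup_append] at h4
  obtain ⟨-, h5, h6⟩ := h4
  rw [List.nodup_cons, List.nodup_cons] at h5
  refine ⟨fun h => h6 _ h _ (by simp) rfl, fun h => h6 _ h _ (by simp) rfl,
    fun h => h5.1 (by simp [h]), h5.2.1⟩

lemma map_congr_off {n : ℕ} {l : List (Fin n)} {a b : Fin n → ℤ} (h : ∀ i ∈ l, a i = b i) :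
    l.map (fun i => G.E (a i)) = l.map (fun i => G.E (b i)) :=
  List.map_congr_left fun i hi => by rw [h i hi]

lemma T_swap_mon (k : ℕ) (i : Fin k) : ∃ V : (Fin (k + 1) → ℤ) → U,
    (∀ a : Fin (k + 1) → ℤ, G.T (k + 1) (mon a) - G.T (k + 1) (mon (a ∘ Equiv.swap i.castSucc i.succ))
      = ((a i.castSucc : K) - a i.succ) • V a) ∧
    (∀ a b : Fin (k + 1) → ℤ, (∀ j, j ≠ i.castSucc → j ≠ i.succ → a j = b j) →
      a i.castSucc + a i.succ = b i.castSucc + b i.succ → V a = V b) := by
  obtain ⟨l₁, l₂, hl, h1, h2, h3, h4⟩ := exists_split k i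
  refine ⟨fun a => (l₁.map (fun j => G.E (a j))).prod * G.E (a i.castSucc + a i.succ)
    * (l₂.map (fun j => G.E (a j))).prod, fun a => ?_, fun a b hab hs => ?_⟩
  · have hT : ∀ a : Fin (k + 1) → ℤ, G.T (k + 1) (mon a) = (l₁.map (fun j => G.E (a j))).prod *
        (G.E (a i.castSucc) * G.E (a i.succ)) * (l₂.map (fun j => G.E (a j))).prod := by
      intro a
      rw [T_mon, W, List.ofFn_eq_map, List.map_map, hl]
      simp [mul_assoc, Function.comp_def]
    rw [hT, hT]
    have e1 : l₁.map (fun j => G.E ((a ∘ Equiv.swap i.castSucc i.succ) j))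
        = l₁.map (fun j => G.E (a j)) := G.map_congr_off fun j hj => by
      rw [Function.comp, Equiv.swap_apply_of_ne_of_ne]
      · rintro rfl; exact h1 hj
      · rintro rfl; exact h2 hj
    have e2 : l₂.map (fun j => G.E ((a ∘ Equiv.swap i.castSucc i.succ) j))
        = l₂.map (fun j => G.E (a j)) := G.map_congr_off fun j hj => by
      rw [Function.comp, Equiv.swap_apply_of_ne_of_ne]
      · rintro rfl; exact h3 hj
      · rintro rfl; exact h4 hj
    rw [e1, e2]
    simp only [Function.comp, Equiv.swap_apply_left, Equiv.swap_apply_right]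
    rw [← sub_mul, ← mul_sub, G.comm, mul_smul_comm, smul_mul_assoc]
  · have e1 : l₁.map (fun j => G.E (a j)) = l₁.map (fun j => G.E (b j)) :=
      G.map_congr_off fun j hj => hab j (by rintro rfl; exact h1 hj) (by rintro rfl; exact h2 hj)
    have e2 : l₂.map (fun j => G.E (a j)) = l₂.map (fun j => G.E (b j)) :=
      G.map_congr_off fun j hj => hab j (by rintro rfl; exact h3 hj) (by rintro rfl; exact h4 hj)
    simp only [e1, e2, hs]

lemma castSucc_ne_succ {k : ℕ} (i : Fin k) : i.castSucc ≠ i.succ := (Fin.castSucc_lt_succ).ne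

lemma T_swap_mul (k : ℕ) (i : Fin k) (y : Lau K (Fin (k + 1))) :
    G.T (k + 1) (sub (Equiv.swap i.castSucc i.succ) ((w i.castSucc - w i.succ) ^ 2 * y))
      = G.T (k + 1) ((w i.castSucc - w i.succ) ^ 2 * y) := by
  obtain ⟨V, hV1, hV2⟩ := G.T_swap_mon k i
  set s := Equiv.swap i.castSucc i.succ with hs
  induction y using lau_induction with
  | h0 => simp
  | hs c x hx => rw [mul_smul_comm, map_smul, map_smul, map_smul, hx]
  | ha x y hx hy => rw [mul_add, map_add, map_add, map_add, hx, hy]
  | hm a =>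
    have hne := castSucc_ne_succ i
    have e1 : ((w i.castSucc - w i.succ) ^ 2 * mon a : Lau K (Fin (k + 1)))
        = mon (a + Pi.single i.castSucc 2) - (2 : K) • mon (a + Pi.single i.castSucc 1 + Pi.single i.succ 1)
          + mon (a + Pi.single i.succ 2) := by
      have h2 : ∀ j : Fin (k + 1), (Pi.single j 2 : Fin (k + 1) → ℤ) = Pi.single j 1 + Pi.single j 1 := by
        intro j; rw [← Pi.single_add]; norm_num
      rw [h2, h2]
      simp only [← add_assoc]
      simp only [← mon_mul]
      change _ = mon a * w i.castSucc * w i.castSucc - (2 : K) • (mon a * w i.castSucc * w i.succ)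
        + mon a * w i.succ * w i.succ
      rw [two_smul]
      ring
    have key : ∀ b : Fin (k + 1) → ℤ, G.T (k + 1) (sub s (mon b)) = G.T (k + 1) (mon b)
        - ((b i.castSucc : K) - b i.succ) • V b := by
      intro b
      rw [sub_mon, push_perm, ← hV1 b]
      simp [hs]
    rw [e1]
    simp only [map_add, map_sub, map_smul, key]
    have hA : V (a + Pi.single i.castSucc 2) = V (a + Pi.single i.castSucc 1 + Pi.single i.succ 1) := by
      apply hV2
      · intro j hj1 hj2; simp [hj1, hj2]
      · simp [hne, hne.symm]; ring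
    have hB : V (a + Pi.single i.succ 2) = V (a + Pi.single i.castSucc 1 + Pi.single i.succ 1) := by
      apply hV2
      · intro j hj1 hj2; simp [hj1, hj2]
      · simp [hne, hne.symm]; ring
    rw [hA, hB]
    set v := V (a + Pi.single i.castSucc 1 + Pi.single i.succ 1)
    simp only [Pi.add_apply, Pi.single_eq_same, Pi.single_eq_of_ne hne, Pi.single_eq_of_ne hne.symm]
    push_cast
    module

/-- Exact symmetry on multiples of the discriminant. -/
lemma T_perm (n : ℕ) (π : Equiv.Perm (Fin n)) : ∀ x : Lau K (Fin n), disc K (Fin n) ∣ x →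
    G.T n (sub π x) = G.T n x := by
  have hdvd : ∀ (π : Equiv.Perm (Fin n)) (x : Lau K (Fin n)), disc K (Fin n) ∣ x →
      disc K (Fin n) ∣ sub π x := by
    rintro π x ⟨y, rfl⟩
    exact ⟨sub π y, by rw [map_mul, sub_disc]⟩
  cases n with
  | zero =>
    intro x _
    have : (π : Fin 0 → Fin 0) = id := by ext i; exact i.elim0
    rw [this, sub_id]
  | succ k =>
    have hπ : π ∈ Submonoid.closure
        (Set.range fun i : Fin k ↦ Equiv.swap i.castSucc i.succ) := by
      rw [Equiv.Perm.mclosure_swap_castSucc_succ]; trivial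
    induction hπ using Submonoid.closure_induction with
    | mem π hπ =>
      obtain ⟨i, rfl⟩ := hπ
      intro x hx
      obtain ⟨y, rfl⟩ := (sq_dvd_disc (castSucc_ne_succ i)).trans hx
      exact G.T_swap_mul k i y
    | one => intro x _; rw [Equiv.Perm.coe_one, sub_id]
    | mul π ρ _ _ h1 h2 =>
      intro x hx
      rw [Equiv.Perm.coe_mul, ← sub_sub, h1 _ (hdvd ρ x hx), h2 x hx]

/-- Symmetry up to lower order terms. -/
lemma T_perm_sub_mem (n : ℕ) (π : Equiv.Perm (Fin n)) (x : Lau K (Fin n)) :
    G.T n (sub π x) - G.T n x ∈ G.F n := by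
  induction x using lau_induction with
  | h0 => simp
  | hs c x hx => rw [map_smul, map_smul, map_smul, ← smul_sub]; exact Submodule.smul_mem _ _ hx
  | ha x y hx hy =>
    rw [map_add, map_add, map_add]
    have := add_mem hx hy
    convert this using 1; abel
  | hm a =>
    rw [sub_mon, push_perm, T_mon, T_mon]
    have h1 : (List.ofFn (a ∘ π.symm)).Perm (List.ofFn a) :=
      Equiv.Perm.ofFn_comp_perm (π.symm : Equiv.Perm (Fin n)) a
    have := G.perm_sub_mem h1
    simpa using this

end WittGen

end WittACC
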